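import Pool.Agent.Q231.TD.Over

/-!
The number of patterns of a program whose incidence graph has small treedepth.
-/

set_option autoImplicit false

open Finset

namespace Pool.Agent.Q231.TD

variable {I J : Type} [Fintype I] [Fintype J] [DecidableEq I] [DecidableEq J]

/-- the exponent -/
def ex : ℕ → ℕ → ℕ
  | 0, _ => 0
  | k + 1, p => p * (1 + ex k (p + 1))

theorem ex_mono (k : ℕ) : ∀ p, ex k p ≤ ex k (p + 1) := by
  induction k with
  | zero => intro p; exact le_rfl
  | succ k ih =>
    intro p
    show p * (1 + ex k (p + 1)) ≤ (p + 1) * (1 + ex k (p + 1 + 1))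
    exact Nat.mul_le_mul (by omega) (Nat.add_le_add_left (ih (p + 1)) 1)

theorem ex_eq (k : ℕ) : ∀ p, ex k p = ∑ i ∈ range k, p.ascFactorial (i + 1) := by
  induction k with
  | zero => intro p; rfl
  | succ k ih =>
    intro p
    show p * (1 + ex k (p + 1)) = _
    rw [ih, sum_range_succ', mul_add, mul_sum, add_comm]
    congr 1
    refine sum_congr rfl fun i _ => ?_
    rw [Nat.ascFactorial_succ (n := p), Nat.ascFactorial_succ, Nat.ascFactorial_succ]
    have := Nat.succ_ascFactorial p i
    nlinarith

/-- the subgraph of the incidence graph on the rows `U` and columns `W` has treedepth at most `k` -/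
def TDle (A : Matrix I J ℚ) : ℕ → Finset I → Finset J → Prop
  | 0, U, W => U = ∅ ∧ W = ∅
  | k + 1, U, W => ∃ (f : I → ℕ) (g : J → ℕ), (∀ i ∈ U, ∀ j ∈ W, A i j ≠ 0 → f i = g j) ∧ ∀ t,
      TDle A k (U.filter (f · = t)) (W.filter (g · = t)) ∨
      (∃ y ∈ U.filter (f · = t), TDle A k ((U.filter (f · = t)).erase y) (W.filter (g · = t))) ∨
      ∃ y ∈ W.filter (g · = t), TDle A k (U.filter (f · = t)) ((W.filter (g · = t)).erase y)

theorem count {A : Matrix I J ℚ} {b0 : I → ℝ} {c0 : J → ℝ} (hb : Gen b0) (hc : Gen c0) (k : ℕ) :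
    ∀ (U : Finset I) (W : Finset J), TDle A k U W → ∀ (a D : ℕ) (B : I → Fin a → ℚ)
      (C : J → Fin D → ℚ),
      (Pats A U W b0 B c0 C).ncard ≤ ((Fintype.card I + Fintype.card J + 1) ^ 2) ^ ex k (a + D) := by
  classical
  induction k with
  | zero =>
    rintro U W ⟨rfl, rfl⟩ a D B C
    have h : Pats A ∅ ∅ b0 B c0 C ⊆ {(∅, ∅)} := by
      rintro ⟨R, S⟩ ⟨⟨β, h1, h2, -⟩, -⟩
      simp only [subset_empty] at h1 h2
      rw [Set.mem_singleton_iff, Prod.mk.injEq]
      exact ⟨h1, h2⟩
    calc (Pats A ∅ ∅ b0 B c0 C).ncard ≤ ({(∅, ∅)} : Set (Finset I × Finset J)).ncard :=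
          Set.ncard_le_ncard h
      _ = 1 := Set.ncard_singleton _
      _ ≤ _ := Nat.one_le_pow _ _ (by positivity)
  | succ k ih =>
    rintro U W ⟨f, g, hfg, hpart⟩ a D B C
    set N := Fintype.card I + Fintype.card J + 1 with hN
    have hN1 : 1 ≤ N := by omega
    set M := N * (N ^ 2) ^ ex k (a + D + 1) with hM
    have hpow : 1 ≤ (N ^ 2) ^ ex k (a + D + 1) := Nat.one_le_pow _ _ (by positivity)
    have hM1 : 1 ≤ M := by
      have := Nat.mul_le_mul hN1 hpow
      omega
    have hle : ∀ t, (Pats A (U.filter (f · = t)) (W.filter (g · = t)) b0 B c0 C).ncard ≤ M := by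
      intro t
      rcases hpart t with h | ⟨y, hy, h⟩ | ⟨y, hy, h⟩
      · refine (ih _ _ h a D B C).trans ?_
        calc (N ^ 2) ^ ex k (a + D) ≤ (N ^ 2) ^ ex k (a + D + 1) :=
              Nat.pow_le_pow_right (by positivity) (ex_mono k _)
          _ = 1 * (N ^ 2) ^ ex k (a + D + 1) := (one_mul _).symm
          _ ≤ M := Nat.mul_le_mul_right _ hN1
      · refine (card_root_row B C hb hc hy).trans ?_
        exact Nat.mul_le_mul_left _ (ih _ _ h a (D + 1) B _)
      · refine (card_root_col B C hb hc hy).trans ?_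
        refine Nat.mul_le_mul_left _ ((ih _ _ h (a + 1) D _ C).trans (le_of_eq ?_))
        rw [show a + 1 + D = a + D + 1 by omega]
    have h1 := card_overlay B C hb hc f g hfg M hle
    have h2 : U.card + W.card ≤ N - 1 := by
      have := card_le_univ U
      have := card_le_univ W
      omega
    have h3 : (U.card + W.card) * M + 1 ≤ N * M := by
      calc (U.card + W.card) * M + 1 ≤ (N - 1) * M + M := Nat.add_le_add (Nat.mul_le_mul_right _ h2) hM1
        _ = (N - 1 + 1) * M := by ring
        _ = N * M := by rw [Nat.sub_add_cancel hN1]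
    refine h1.trans ((Nat.pow_le_pow_left h3 _).trans (le_of_eq ?_))
    show (N * (N * (N ^ 2) ^ ex k (a + D + 1))) ^ (a + D) =
      (N ^ 2) ^ ((a + D) * (1 + ex k (a + D + 1)))
    rw [show N * (N * (N ^ 2) ^ ex k (a + D + 1)) = (N ^ 2) ^ (1 + ex k (a + D + 1)) by
      rw [pow_add]; ring, ← pow_mul, mul_comm (a + D)]

/-- an elimination forest of height `k`, given by addresses -/
theorem td_of_addr {A : Matrix I J ℚ} (k : ℕ) : ∀ (U : Finset I) (W : Finset J)
    (p : I ⊕ J → List ℕ), (∀ e ∈ U.disjSum W, ∀ e' ∈ U.disjSum W, p e = p e' → e = e') →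
    (∀ e ∈ U.disjSum W, 1 ≤ (p e).length ∧ (p e).length ≤ k) →
    (∀ i ∈ U, ∀ j ∈ W, A i j ≠ 0 → p (Sum.inl i) <+: p (Sum.inr j) ∨
      p (Sum.inr j) <+: p (Sum.inl i)) → TDle A k U W := by
  classical
  induction k with
  | zero =>
    intro U W p _ hlen _
    constructor
    · rw [eq_empty_iff_forall_notMem]
      intro i hi
      have := hlen (Sum.inl i) (inl_mem_disjSum.2 hi)
      omega
    · rw [eq_empty_iff_forall_notMem]
      intro j hj
      have := hlen (Sum.inr j) (inr_mem_disjSum.2 hj)
      omega
  | succ k ih =>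
    intro U W p hinj hlen hA
    have hhead : ∀ l l' : List ℕ, 1 ≤ l.length → l <+: l' → l.headD 0 = l'.headD 0 := by
      rintro l l' h1 ⟨l'', rfl⟩
      cases l with
      | nil => simp at h1
      | cons x l => simp
    refine ⟨fun i => (p (Sum.inl i)).headD 0, fun j => (p (Sum.inr j)).headD 0, ?_, ?_⟩
    · intro i hi j hj h
      rcases hA i hi j hj h with h | h
      · exact hhead _ _ (hlen _ (inl_mem_disjSum.2 hi)).1 h
      · exact (hhead _ _ (hlen _ (inr_mem_disjSum.2 hj)).1 h).symm
    · intro t
      set U1 := U.filter fun i => (p (Sum.inl i)).headD 0 = t with hU1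
      set W1 := W.filter fun j => (p (Sum.inr j)).headD 0 = t with hW1
      have hcons : ∀ e ∈ U1.disjSum W1, p e = t :: (p e).tail ∧ e ∈ U.disjSum W := by
        intro e he
        have h1 : e ∈ U.disjSum W ∧ (p e).headD 0 = t := by
          rcases e with i | j
          · rw [inl_mem_disjSum, mem_filter] at he
            exact ⟨inl_mem_disjSum.2 he.1, he.2⟩
          · rw [inr_mem_disjSum, mem_filter] at he
            exact ⟨inr_mem_disjSum.2 he.1, he.2⟩
        refine ⟨?_, h1.1⟩
        have h2 := (hlen e h1.1).1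
        have h3 := h1.2
        cases hp : p e with
        | nil => rw [hp] at h2; simp at h2
        | cons x l =>
          rw [hp] at h3
          simp only [List.headD_cons] at h3
          simp [h3]
      have key : ∀ U2 ⊆ U1, ∀ W2 ⊆ W1, (∀ e ∈ U2.disjSum W2, p e ≠ [t]) → TDle A k U2 W2 := by
        intro U2 hU2 W2 hW2 hne
        have hsub : ∀ e ∈ U2.disjSum W2, e ∈ U1.disjSum W1 := by
          rintro (i | j) he
          · rw [inl_mem_disjSum] at he ⊢; exact hU2 he
          · rw [inr_mem_disjSum] at he ⊢; exact hW2 he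
        apply ih U2 W2 fun e => (p e).tail
        · intro e he e' he' h
          obtain ⟨h1, h2⟩ := hcons e (hsub e he)
          obtain ⟨h1', h2'⟩ := hcons e' (hsub e' he')
          apply hinj e h2 e' h2'
          rw [h1, h1', h]
        · intro e he
          obtain ⟨h1, h2⟩ := hcons e (hsub e he)
          have h3 := (hlen e h2).2
          rw [h1] at h3
          simp only [List.length_cons] at h3
          refine ⟨?_, by omega⟩
          by_contra h4
          have h5 : (p e).tail = [] := by
            rw [← List.length_eq_zero_iff]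
            omega
          apply hne e he
          rw [h1, h5]
        · intro i hi j hj hAij
          have hi' := inl_mem_disjSum (t := W2).2 hi
          have hj' := inr_mem_disjSum (s := U2).2 hj
          obtain ⟨h1, h2⟩ := hcons _ (hsub _ hi')
          obtain ⟨h1', h2'⟩ := hcons _ (hsub _ hj')
          rw [inl_mem_disjSum] at h2
          rw [inr_mem_disjSum] at h2'
          rcases hA i h2 j h2' hAij with h | h
          · left
            rw [h1, h1'] at h
            exact (List.cons_prefix_cons.1 h).2
          · right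
            rw [h1, h1'] at h
            exact (List.cons_prefix_cons.1 h).2
      by_cases h1 : ∃ i ∈ U1, p (Sum.inl i) = [t]
      · obtain ⟨y, hy, hpy⟩ := h1
        right; left
        refine ⟨y, hy, key _ (erase_subset _ _) _ (Subset.refl _) ?_⟩
        rintro (i | j) he h
        · rw [inl_mem_disjSum, mem_erase] at he
          have h2 := hinj _ (hcons _ (inl_mem_disjSum.2 he.2)).2 _
            (hcons _ (inl_mem_disjSum.2 hy)).2 (h.trans hpy.symm)
          exact he.1 (Sum.inl.inj h2)
        · rw [inr_mem_disjSum] at he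
          have h2 := hinj _ (hcons _ (inr_mem_disjSum.2 he)).2 _
            (hcons _ (inl_mem_disjSum.2 hy)).2 (h.trans hpy.symm)
          cases h2
      · by_cases h2 : ∃ j ∈ W1, p (Sum.inr j) = [t]
        · obtain ⟨y, hy, hpy⟩ := h2
          right; right
          refine ⟨y, hy, key _ (Subset.refl _) _ (erase_subset _ _) ?_⟩
          rintro (i | j) he h
          · rw [inl_mem_disjSum] at he
            exact h1 ⟨i, he, h⟩
          · rw [inr_mem_disjSum, mem_erase] at he
            have h2 := hinj _ (hcons _ (inr_mem_disjSum.2 he.2)).2 _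
              (hcons _ (inr_mem_disjSum.2 hy)).2 (h.trans hpy.symm)
            exact he.1 (Sum.inr.inj h2)
        · left
          refine key _ (Subset.refl _) _ (Subset.refl _) ?_
          rintro (i | j) he h
          · rw [inl_mem_disjSum] at he
            exact h1 ⟨i, he, h⟩
          · rw [inr_mem_disjSum] at he
            exact h2 ⟨j, he, h⟩

end Pool.Agent.Q231.TD
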