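import Pool.Agent.Q231.TD.Count
import Pool.Agent.H575R2.Farkas

/-!
From unique maximizers of linear programs to patterns.
-/

set_option autoImplicit false

open Finset

namespace Pool.Agent.Q231.TD

variable {I J : Type} [Fintype I] [Fintype J] [DecidableEq I] [DecidableEq J]

/-- the feasible points -/
def Feas (A : Matrix I J ℚ) (b : I → ℝ) : Set (J → ℝ) :=
  {x | (∀ j, 0 ≤ x j) ∧ ∀ i, ∑ j, (A i j : ℝ) * x j ≤ b i}

/-- the value of a point -/
def val (w x : J → ℝ) : ℝ := ∑ j, w j * x j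

/-! ### generic numbers -/

theorem exists_gen (b : I → ℚ) (ε : ℝ) (hε : 0 < ε) :
    ∃ η : I → ℝ, (∀ i, 0 < η i ∧ η i < ε) ∧ Gen fun i => (b i : ℝ) + η i := by
  classical
  obtain ⟨τ, hτ⟩ : ∃ τ : ℝ, Transcendental ℚ τ := by
    refine ⟨liouvilleNumber ((2 : ℕ) : ℝ), ?_⟩
    have h := transcendental_liouvilleNumber (le_refl 2)
    unfold Transcendental at h ⊢
    rwa [← IsFractionRing.isAlgebraic_iff ℤ ℚ ℝ]
  have hτ0 : τ ≠ 0 := by
    rintro rfl
    exact hτ isAlgebraic_zero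
  let e := Fintype.equivFin I
  have hq : ∀ i : I, ∃ q : ℚ, q ≠ 0 ∧ 0 < (q : ℝ) * τ ^ ((e i : ℕ) + 1) ∧
      (q : ℝ) * τ ^ ((e i : ℕ) + 1) < ε := by
    intro i
    have h0 : τ ^ ((e i : ℕ) + 1) ≠ 0 := pow_ne_zero _ hτ0
    rcases lt_or_gt_of_ne h0 with h | h
    · obtain ⟨q, h1, h2⟩ := exists_rat_btwn (div_neg_of_pos_of_neg hε h)
      refine ⟨q, ?_, ?_, ?_⟩
      · rintro rfl
        simp at h2
      · exact mul_pos_of_neg_of_neg h2 h
      · rwa [div_lt_iff_of_neg h] at h1
    · obtain ⟨q, h1, h2⟩ := exists_rat_btwn (div_pos hε h)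
      refine ⟨q, ?_, ?_, ?_⟩
      · rintro rfl
        simp at h1
      · exact mul_pos h1 h
      · rwa [lt_div_iff₀ h] at h2
  choose q hq0 hq1 hq2 using hq
  refine ⟨fun i => (q i : ℝ) * τ ^ ((e i : ℕ) + 1), fun i => ⟨hq1 i, hq2 i⟩, ?_⟩
  intro t t0 h
  rw [transcendental_iff] at hτ
  set p : Polynomial ℚ := ∑ i, Polynomial.monomial ((e i : ℕ) + 1) (t i * q i) +
    Polynomial.C (∑ i, t i * b i + t0) with hp
  have h1 : Polynomial.aeval τ p = 0 := by
    rw [hp, map_add, map_sum, Polynomial.aeval_C]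
    simp only [Polynomial.aeval_monomial, eq_ratCast]
    push_cast
    rw [← h, ← add_assoc, ← sum_add_distrib]
    congr 1
    exact sum_congr rfl fun i _ => by ring
  have h2 := hτ p h1
  intro i
  have h3 : p.coeff ((e i : ℕ) + 1) = 0 := by rw [h2]; simp
  rw [hp, Polynomial.coeff_add, Polynomial.finsetSum_coeff, Polynomial.coeff_C] at h3
  simp only [Polynomial.coeff_monomial] at h3
  have h4 : ∀ i', (if (e i' : ℕ) + 1 = (e i : ℕ) + 1 then t i' * q i' else 0) =
      if i' = i then t i' * q i' else 0 := by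
    intro i'
    congr 1
    apply propext
    constructor
    · intro h5
      apply e.injective
      apply Fin.ext
      omega
    · rintro rfl; rfl
  rw [sum_congr rfl fun i' _ => h4 i'] at h3
  simp only [sum_ite_eq', mem_univ, if_true, Nat.add_eq_zero_iff, one_ne_zero, and_false,
    if_false, add_zero] at h3
  exact (mul_eq_zero.1 h3).resolve_right (hq0 i)

/-! ### stability -/

omit [DecidableEq I] [DecidableEq J] [Fintype I] in
theorem feas_closed (A : Matrix I J ℚ) (b : I → ℝ) : IsClosed (Feas A b) := by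
  have h : Feas A b = (⋂ j, {x | 0 ≤ x j}) ∩ ⋂ i, {x | ∑ j, (A i j : ℝ) * x j ≤ b i} := by
    ext x
    simp [Feas]
  rw [h]
  refine IsClosed.inter (isClosed_iInter fun j => ?_) (isClosed_iInter fun i => ?_)
  · exact isClosed_le continuous_const (continuous_apply j)
  · exact isClosed_le (by fun_prop) continuous_const

omit [DecidableEq I] [DecidableEq J] [Fintype I] in
theorem feas_seg {A : Matrix I J ℚ} {b : I → ℝ} {x y : J → ℝ} (hx : x ∈ Feas A b)
    (hy : y ∈ Feas A b) {t : ℝ} (h0 : 0 ≤ t) (h1 : t ≤ 1) : x + t • (y - x) ∈ Feas A b := by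
  constructor
  · intro j
    have e : (x + t • (y - x)) j = (1 - t) * x j + t * y j := by
      simp only [Pi.add_apply, Pi.smul_apply, Pi.sub_apply, smul_eq_mul]; ring
    rw [e]
    have := mul_nonneg (sub_nonneg.2 h1) (hx.1 j)
    have := mul_nonneg h0 (hy.1 j)
    linarith
  · intro i
    have e : ∑ j, (A i j : ℝ) * (x + t • (y - x)) j =
        (1 - t) * ∑ j, (A i j : ℝ) * x j + t * ∑ j, (A i j : ℝ) * y j := by
      rw [mul_sum, mul_sum, ← sum_add_distrib]
      refine sum_congr rfl fun j _ => ?_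
      simp only [Pi.add_apply, Pi.smul_apply, Pi.sub_apply, smul_eq_mul]; ring
    rw [e]
    have h2 := mul_le_mul_of_nonneg_left (hx.2 i) (sub_nonneg.2 h1)
    have h3 := mul_le_mul_of_nonneg_left (hy.2 i) h0
    nlinarith

omit [DecidableEq J] in
theorem val_seg (w x y : J → ℝ) (t : ℝ) :
    val w (x + t • (y - x)) = val w x + t * (val w y - val w x) := by
  unfold val
  rw [← sum_sub_distrib, mul_sum, ← sum_add_distrib]
  refine sum_congr rfl fun j _ => ?_
  simp only [Pi.add_apply, Pi.smul_apply, Pi.sub_apply, smul_eq_mul]; ring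

omit [DecidableEq J] in
theorem val_cont : Continuous fun q : (J → ℝ) × (J → ℝ) => val q.1 q.2 := by
  unfold val
  fun_prop

omit [DecidableEq I] [DecidableEq J] in
theorem stable {A : Matrix I J ℚ} {b : I → ℝ} {w v : J → ℝ} (hv : v ∈ Feas A b)
    (hmax : ∀ y ∈ Feas A b, y ≠ v → val w y < val w v) {ρ : ℝ} (hρ : 0 < ρ) :
    ∃ ε : ℝ, 0 < ε ∧ ∀ (b' : I → ℝ) (w' : J → ℝ), (∀ i, b i ≤ b' i ∧ b' i ≤ b i + ε) →
      (∀ j, |w' j - w j| ≤ ε) → ∃ x ∈ Feas A b', ‖x - v‖ ≤ ρ ∧
        ∀ y ∈ Feas A b', val w' y ≤ val w' x := by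
  have ev : ∀ᶠ q in nhds ((b, w) : (I → ℝ) × (J → ℝ)), ∀ x ∈ Metric.sphere v ρ,
      x ∈ Feas A q.1 → val q.2 x < val q.2 v := by
    refine IsCompact.eventually_forall_of_forall_eventually (isCompact_sphere v ρ) ?_
    intro y hy
    by_cases hyf : y ∈ Feas A b
    · have hyv : y ≠ v := by
        rintro rfl
        rw [mem_sphere_iff_norm, sub_self, norm_zero] at hy
        exact hρ.ne hy
      have h1 := hmax y hyf hyv
      have h2 : Continuous fun z : ((I → ℝ) × (J → ℝ)) × (J → ℝ) => val z.1.2 z.2 :=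
        val_cont.comp ((continuous_snd.comp continuous_fst).prodMk continuous_snd)
      have h3 : Continuous fun z : ((I → ℝ) × (J → ℝ)) × (J → ℝ) => val z.1.2 v :=
        val_cont.comp ((continuous_snd.comp continuous_fst).prodMk continuous_const)
      have h4 := (h2.tendsto ((b, w), y)).eventually_lt (h3.tendsto ((b, w), y)) h1
      filter_upwards [h4] with z hz _
      exact hz
    · have h1 : (∃ j, y j < 0) ∨ ∃ i, b i < ∑ j, (A i j : ℝ) * y j := by
        by_contra h
        push Not at h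
        exact hyf h
      rcases h1 with ⟨j, hj⟩ | ⟨i, hi⟩
      · have h2 : Continuous fun z : ((I → ℝ) × (J → ℝ)) × (J → ℝ) => z.2 j := by fun_prop
        have h4 := (h2.tendsto ((b, w), y)).eventually (gt_mem_nhds hj)
        filter_upwards [h4] with z hz hz'
        exact absurd (hz'.1 j) (not_le.2 hz)
      · have h2 : Continuous fun z : ((I → ℝ) × (J → ℝ)) × (J → ℝ) => z.1.1 i := by fun_prop
        have h3 : Continuous fun z : ((I → ℝ) × (J → ℝ)) × (J → ℝ) =>
          ∑ j, (A i j : ℝ) * z.2 j := by fun_prop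
        have h4 := (h2.tendsto ((b, w), y)).eventually_lt (h3.tendsto ((b, w), y)) hi
        filter_upwards [h4] with z hz hz'
        exact absurd (hz'.2 i) (not_le.2 hz)
  rw [Metric.eventually_nhds_iff] at ev
  obtain ⟨ε, hε, ev⟩ := ev
  refine ⟨ε / 2, by positivity, ?_⟩
  intro b' w' hb' hw'
  have hd : dist ((b', w') : (I → ℝ) × (J → ℝ)) (b, w) < ε := by
    have h1 : dist b' b ≤ ε / 2 := by
      rw [dist_pi_le_iff (by positivity)]
      intro i
      rw [Real.dist_eq, abs_le]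
      have := hb' i
      constructor <;> linarith
    have h2 : dist w' w ≤ ε / 2 := by
      rw [dist_pi_le_iff (by positivity)]
      intro j
      rw [Real.dist_eq]
      exact hw' j
    rw [Prod.dist_eq]
    exact (max_le h1 h2).trans_lt (by linarith)
  have key := ev hd
  simp only at key
  have hvf : v ∈ Feas A b' := ⟨hv.1, fun i => (hv.2 i).trans (hb' i).1⟩
  have hK : IsCompact (Feas A b' ∩ Metric.closedBall v ρ) :=
    (isCompact_closedBall v ρ).inter_left (feas_closed A b')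
  obtain ⟨x, hx, hxm⟩ := hK.exists_isMaxOn ⟨v, hvf, Metric.mem_closedBall_self hρ.le⟩
    ((val_cont.comp (continuous_const.prodMk continuous_id)).continuousOn
      (f := fun x => val w' x))
  refine ⟨x, hx.1, ?_, ?_⟩
  · have := hx.2
    rwa [Metric.mem_closedBall, dist_eq_norm] at this
  · intro y hy
    by_cases hyb : y ∈ Metric.closedBall v ρ
    · exact hxm ⟨hy, hyb⟩
    · by_contra hlt
      push Not at hlt
      have hc : Continuous fun t : ℝ => ‖x + t • (y - x) - v‖ := by fun_prop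
      have h0 : ‖x + (0 : ℝ) • (y - x) - v‖ ≤ ρ := by
        have := hx.2
        rw [Metric.mem_closedBall, dist_eq_norm] at this
        simpa using this
      have h1 : ρ ≤ ‖x + (1 : ℝ) • (y - x) - v‖ := by
        rw [Metric.mem_closedBall, dist_eq_norm, not_le] at hyb
        rw [one_smul, add_sub_cancel]
        exact hyb.le
      obtain ⟨t, ht, hte⟩ := intermediate_value_Icc (zero_le_one' ℝ) hc.continuousOn
        (show ρ ∈ Set.Icc _ _ from ⟨h0, h1⟩)
      simp only at hte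
      have hz := feas_seg hx.1 hy ht.1 ht.2
      have h2 := key (x + t • (y - x)) (by rw [mem_sphere_iff_norm]; exact hte) hz
      have h3 : val w' v ≤ val w' x := hxm ⟨hvf, Metric.mem_closedBall_self hρ.le⟩
      rw [val_seg] at h2
      have h4 : 0 ≤ t * (val w' y - val w' x) := mul_nonneg ht.1 (by linarith)
      linarith

/-! ### optimality conditions -/

omit [DecidableEq I] in
theorem kkt {A : Matrix I J ℚ} {b : I → ℝ} {w x : J → ℝ} (hx : x ∈ Feas A b)
    (hmax : ∀ y ∈ Feas A b, val w y ≤ val w x) :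
    ∃ z : I → ℝ, (∀ i, 0 ≤ z i) ∧ (∀ j, w j ≤ ∑ i, (A i j : ℝ) * z i) ∧
      (∀ i, ∑ j, (A i j : ℝ) * x j < b i → z i = 0) ∧
      ∀ j, 0 < x j → ∑ i, (A i j : ℝ) * z i = w j := by
  classical
  let e := Fintype.equivFin (I ⊕ J)
  let ℓ : I ⊕ J → (J → ℝ) →ₗ[ℝ] ℝ := Sum.elim
    (fun i => ∑ j, (A i j : ℝ) • LinearMap.proj j) (fun j => - LinearMap.proj j)
  let β : I ⊕ J → ℝ := Sum.elim b fun _ => 0
  let f : (J → ℝ) →ₗ[ℝ] ℝ := ∑ j, w j • LinearMap.proj j
  have hf : ∀ y, f y = val w y := by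
    intro y
    simp [f, val, LinearMap.sum_apply]
  have hℓ1 : ∀ i y, ℓ (Sum.inl i) y = ∑ j, (A i j : ℝ) * y j := by
    intro i y
    simp [ℓ, LinearMap.sum_apply]
  have hℓ2 : ∀ j y, ℓ (Sum.inr j) y = - y j := by
    intro j y
    simp [ℓ]
  have hiff : ∀ y : J → ℝ, (∀ i, ℓ (e.symm i) y ≤ β (e.symm i)) → y ∈ Feas A b := by
    intro y hy
    constructor
    · intro j
      have := hy (e (Sum.inr j))
      rw [Equiv.symm_apply_apply, hℓ2] at this
      have h2 : β (Sum.inr j) = 0 := rfl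
      linarith
    · intro i
      have := hy (e (Sum.inl i))
      rwa [Equiv.symm_apply_apply, hℓ1] at this
  obtain ⟨w0, u, hw0, hu, hux⟩ := H575R2.farkas_affine _ (fun i => ℓ (e.symm i))
    (fun i => β (e.symm i)) f (val w x) x (by
      intro i
      rcases hi : e.symm i with i' | j'
      · rw [hℓ1]
        exact hx.2 i'
      · rw [hℓ2]
        have := hx.1 j'
        have h2 : β (Sum.inr j') = 0 := rfl
        linarith) (by
      intro y hy
      rw [hf]
      exact hmax y (hiff y hy))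
  have hux' : ∀ y, val w x - val w y = w0 + (∑ i, u (e (Sum.inl i)) *
      (b i - ∑ j, (A i j : ℝ) * y j) + ∑ j, u (e (Sum.inr j)) * y j) := by
    intro y
    rw [← hf y, hux y]
    congr 1
    rw [← Equiv.sum_comp e, Fintype.sum_sum_type]
    congr 1
    · refine sum_congr rfl fun i _ => ?_
      rw [Equiv.symm_apply_apply, hℓ1]
      rfl
    · refine sum_congr rfl fun j _ => ?_
      rw [Equiv.symm_apply_apply, hℓ2]
      have h2 : β (Sum.inr j) = 0 := rfl
      rw [h2]
      ring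
  have h0 := hux' x
  rw [sub_self] at h0
  have n1 : ∀ i, 0 ≤ u (e (Sum.inl i)) * (b i - ∑ j, (A i j : ℝ) * x j) := fun i =>
    mul_nonneg (hu _) (by linarith [hx.2 i])
  have n2 : ∀ j, 0 ≤ u (e (Sum.inr j)) * x j := fun j => mul_nonneg (hu _) (hx.1 j)
  have s1 := sum_nonneg fun i (_ : i ∈ (univ : Finset I)) => n1 i
  have s2 := sum_nonneg fun j (_ : j ∈ (univ : Finset J)) => n2 j
  have z1 := (sum_eq_zero_iff_of_nonneg fun i _ => n1 i).1 (le_antisymm (by linarith) s1)
  have z2 := (sum_eq_zero_iff_of_nonneg fun j _ => n2 j).1 (le_antisymm (by linarith) s2)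
  -- the reduced costs
  have hred : ∀ j, ∑ i, (A i j : ℝ) * u (e (Sum.inl i)) = w j + u (e (Sum.inr j)) := by
    intro j
    have h1 := hux' 0
    have h2 := hux' (Pi.single j 1)
    have e1 : val w (Pi.single j 1) = w j := by
      unfold val
      simp [Pi.single_apply]
    have e0 : val w (0 : J → ℝ) = 0 := by
      unfold val
      simp
    have e2 : ∀ i, ∑ j', (A i j' : ℝ) * (Pi.single j 1 : J → ℝ) j' = A i j := by
      intro i
      simp [Pi.single_apply]
    have e3 : ∑ j', u (e (Sum.inr j')) * (Pi.single j 1 : J → ℝ) j' = u (e (Sum.inr j)) := by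
      simp [Pi.single_apply]
    have e4 : ∑ i, u (e (Sum.inl i)) * (b i - ∑ j', (A i j' : ℝ) * (Pi.single j 1 : J → ℝ) j') =
        ∑ i, u (e (Sum.inl i)) * b i - ∑ i, (A i j : ℝ) * u (e (Sum.inl i)) := by
      rw [← sum_sub_distrib]
      refine sum_congr rfl fun i _ => ?_
      rw [e2]
      ring
    rw [e1, e3, e4] at h2
    rw [e0] at h1
    simp only [Pi.zero_apply, mul_zero, sum_const_zero, sub_zero, add_zero] at h1
    linarith
  refine ⟨fun i => u (e (Sum.inl i)), fun i => hu _, ?_, ?_, ?_⟩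
  · intro j
    rw [hred j]
    linarith [hu (e (Sum.inr j))]
  · intro i hi
    have := z1 i (mem_univ i)
    rcases mul_eq_zero.1 this with h | h
    · exact h
    · linarith
  · intro j hj
    rw [hred j]
    have := z2 j (mem_univ j)
    rcases mul_eq_zero.1 this with h | h
    · rw [h, add_zero]
    · linarith

/-- the pattern of a maximizer -/
theorem pat_of_max {A : Matrix I J ℚ} {b0 : I → ℝ} {c0 : J → ℝ} (hb : Gen b0) (hc : Gen c0)
    {D : ℕ} (C : J → Fin D → ℚ) (μ : Fin D → ℚ) {x : J → ℝ} (hx : x ∈ Feas A b0)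
    (hmax : ∀ y ∈ Feas A b0, val (fun j => -aff c0 C μ j) y ≤ val (fun j => -aff c0 C μ j) x) :
    ∃ P ∈ Pats A univ univ b0 (fun _ => Fin.elim0 : I → Fin 0 → ℚ) c0 C,
      (∀ j, j ∉ P.2 → x j = 0) ∧ ∀ i ∈ P.1, ∑ j, (A i j : ℝ) * x j = b0 i := by
  classical
  obtain ⟨z, hz0, hz1, hz2, hz3⟩ := kkt hx hmax
  have hneg : ∀ j, ∑ i, ((-A.transpose) j i : ℝ) * z i = - ∑ i, (A i j : ℝ) * z i := by
    intro j
    rw [← sum_neg_distrib]
    refine sum_congr rfl fun i _ => ?_
    rw [Matrix.neg_apply, Matrix.transpose_apply]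
    push_cast
    ring
  set S : Finset J := univ.filter fun j => 0 < x j with hS
  set S' : Finset J := univ.filter fun j => ∑ i, ((-A.transpose) j i : ℝ) * z i = aff c0 C μ j
    with hS'
  set R : Finset I := univ.filter fun i => ∑ j, (A i j : ℝ) * x j = b0 i with hR
  set R' : Finset I := univ.filter fun i => 0 < z i with hR'
  have a0 : ∀ (β : Fin 0 → ℚ) i, aff b0 (fun _ => Fin.elim0 : I → Fin 0 → ℚ) β i = b0 i := by
    intro β i
    unfold aff
    simp
  have hSS' : S ⊆ S' := by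
    intro j hj
    rw [hS, mem_filter] at hj
    rw [hS', mem_filter]
    refine ⟨mem_univ _, ?_⟩
    rw [hneg, hz3 j hj.2]
    ring
  have hRR' : R' ⊆ R := by
    intro i hi
    rw [hR', mem_filter] at hi
    rw [hR, mem_filter]
    refine ⟨mem_univ _, ?_⟩
    by_contra h
    have := hz2 i (lt_of_le_of_ne (hx.2 i) h)
    linarith [hi.2]
  have hx0 : ∀ j, j ∉ S → x j = 0 := by
    intro j hj
    by_contra h
    exact hj (mem_filter.2 ⟨mem_univ _, lt_of_le_of_ne (hx.1 j) (Ne.symm h)⟩)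
  have hz0' : ∀ i, i ∉ R' → z i = 0 := by
    intro i hi
    by_contra h
    exact hi (mem_filter.2 ⟨mem_univ _, lt_of_le_of_ne (hz0 i) (Ne.symm h)⟩)
  have c1 : R.card ≤ S.card := by
    refine card_le_card_of_sol hb (fun _ => Fin.elim0 : I → Fin 0 → ℚ) Fin.elim0 (A := A)
      hx0 fun i hi => ?_
    rw [a0]
    exact (mem_filter.1 hi).2
  have c2 : S'.card ≤ R'.card := by
    refine card_le_card_of_sol hc C μ (A := -A.transpose) hz0' fun j hj => ?_
    exact (mem_filter.1 hj).2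
  have c3 := card_le_card hSS'
  have c4 := card_le_card hRR'
  have eS : S = S' := eq_of_subset_of_card_le hSS' (by omega)
  have eR : R' = R := eq_of_subset_of_card_le hRR' (by omega)
  refine ⟨(R, S), ⟨⟨Fin.elim0, subset_univ _, subset_univ _, x, ?_, hx0, ?_, ?_⟩, μ,
    subset_univ _, subset_univ _, z, ?_, ?_, ?_, ?_⟩, hx0, ?_⟩
  · intro j hj
    exact (mem_filter.1 hj).2
  · intro i hi
    rw [a0]
    exact (mem_filter.1 hi).2
  · intro i _ hi
    rw [a0]
    refine lt_of_le_of_ne (hx.2 i) fun h => hi (mem_filter.2 ⟨mem_univ _, h⟩)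
  · intro i hi
    have hi' : i ∈ R' := by rw [eR]; exact hi
    exact (mem_filter.1 hi').2
  · intro i hi
    exact hz0' i (by rw [eR]; exact hi)
  · intro j hj
    have hj' : j ∈ S' := by rw [← eS]; exact hj
    exact (mem_filter.1 hj').2
  · intro j _ hj
    have hj' : j ∉ S' := by rw [← eS]; exact hj
    refine lt_of_le_of_ne ?_ fun h => hj' (mem_filter.2 ⟨mem_univ _, h⟩)
    rw [hneg]
    have := hz1 j
    linarith
  · intro i hi
    exact (mem_filter.1 hi).2

/-! ### the number of unique maximizers -/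

/-- the point `v` is the unique maximizer -/
def UMax (A : Matrix I J ℚ) (b : I → ℝ) (w v : J → ℝ) : Prop :=
  v ∈ Feas A b ∧ ∀ y ∈ Feas A b, y ≠ v → val w y < val w v

/-- the parametric objective function -/
def combo {p : ℕ} (c : J → ℚ) (d : Fin p → J → ℚ) (μ : Fin p → ℝ) (j : J) : ℝ :=
  (c j : ℝ) + ∑ t, μ t * (d t j : ℝ)

theorem exists_pos_le {α : Type} (s : Finset α) (f : α → ℝ) (hf : ∀ a ∈ s, 0 < f a) :
    ∃ δ : ℝ, 0 < δ ∧ ∀ a ∈ s, δ ≤ f a := by
  rcases s.eq_empty_or_nonempty with rfl | hs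
  · exact ⟨1, one_pos, by simp⟩
  · obtain ⟨a, ha, hmin⟩ := exists_min_image s f hs
    exact ⟨f a, hf a ha, hmin⟩

theorem rat_approx {p : ℕ} (d : Fin p → J → ℚ) (μ : Fin p → ℝ) (ε : ℝ) (hε : 0 < ε) :
    ∃ μ' : Fin p → ℚ, ∀ j, |∑ t, ((μ' t : ℝ) - μ t) * (d t j : ℝ)| ≤ ε := by
  set K : ℝ := 1 + ∑ j, ∑ t, |(d t j : ℝ)| with hK
  have hK0 : 0 < K := by
    have : 0 ≤ ∑ j, ∑ t, |(d t j : ℝ)| := sum_nonneg fun j _ => sum_nonneg fun t _ => abs_nonneg _
    linarith
  have h : ∀ t, ∃ q : ℚ, |(q : ℝ) - μ t| ≤ ε / K := by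
    intro t
    obtain ⟨q, h1, h2⟩ := exists_rat_btwn (show μ t < μ t + ε / K by
      have := div_pos hε hK0; linarith)
    refine ⟨q, ?_⟩
    rw [abs_le]
    have := div_pos hε hK0
    constructor <;> linarith
  choose q hq using h
  refine ⟨q, fun j => ?_⟩
  calc |∑ t, ((q t : ℝ) - μ t) * (d t j : ℝ)| ≤ ∑ t, |((q t : ℝ) - μ t) * (d t j : ℝ)| :=
        abs_sum_le_sum_abs _ _
    _ ≤ ∑ t, ε / K * |(d t j : ℝ)| := by
        refine sum_le_sum fun t _ => ?_
        rw [abs_mul]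
        exact mul_le_mul_of_nonneg_right (hq t) (abs_nonneg _)
    _ = ε / K * ∑ t, |(d t j : ℝ)| := by rw [mul_sum]
    _ ≤ ε / K * K := by
        refine mul_le_mul_of_nonneg_left ?_ (div_pos hε hK0).le
        have := single_le_sum (f := fun j => ∑ t, |(d t j : ℝ)|)
          (fun j _ => sum_nonneg fun t _ => abs_nonneg _) (mem_univ j)
        linarith
    _ = ε := div_mul_cancel₀ _ hK0.ne'

theorem card_umax {A : Matrix I J ℚ} (b : I → ℚ) (c : J → ℚ) {p : ℕ} (d : Fin p → J → ℚ) {N : ℕ}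
    (hN : ∀ (b0 : I → ℝ) (c0 : J → ℝ), Gen b0 → Gen c0 → ∀ C : J → Fin p → ℚ,
      (Pats A univ univ b0 (fun _ => Fin.elim0 : I → Fin 0 → ℚ) c0 C).ncard ≤ N)
    (F : Finset (J → ℝ))
    (hF : ∀ v ∈ F, ∃ μ, UMax A (fun i => (b i : ℝ)) (combo c d μ) v) : F.card ≤ N := by
  classical
  obtain ⟨δ, hδ, hsep⟩ := exists_pos_le ((F ×ˢ F).filter fun q => q.1 ≠ q.2)
    (fun q => ‖q.1 - q.2‖) (by
      intro q hq
      rw [mem_filter] at hq
      rw [norm_pos_iff]
      exact sub_ne_zero.2 hq.2)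
  have hF' : ∀ v : J → ℝ, ∃ (μ : Fin p → ℝ) (ε : ℝ), 0 < ε ∧ (v ∈ F →
      ∀ (b' : I → ℝ) (w' : J → ℝ), (∀ i, (b i : ℝ) ≤ b' i ∧ b' i ≤ b i + ε) →
      (∀ j, |w' j - combo c d μ j| ≤ ε) → ∃ x ∈ Feas A b', ‖x - v‖ ≤ δ / 3 ∧
        ∀ y ∈ Feas A b', val w' y ≤ val w' x) := by
    intro v
    by_cases hv : v ∈ F
    · obtain ⟨μ, hv1, hv2⟩ := hF v hv
      obtain ⟨ε, hε, h⟩ := stable hv1 hv2 (show 0 < δ / 3 by positivity)
      exact ⟨μ, ε, hε, fun _ => h⟩
    · exact ⟨0, 1, one_pos, fun h => absurd h hv⟩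
  choose μ ε' hε' hst using hF'
  obtain ⟨ε, hε, hle⟩ := exists_pos_le F ε' fun v _ => hε' v
  obtain ⟨η, hη, hb⟩ := exists_gen b ε hε
  obtain ⟨ζ, hζ, hc⟩ := exists_gen (fun j => -c j) (ε / 2) (by positivity)
  choose μ' hμ' using fun v => rat_approx d (μ v) (ε / 2) (by positivity)
  set b0 : I → ℝ := fun i => (b i : ℝ) + η i with hb0
  set c0 : J → ℝ := fun j => ((-c j : ℚ) : ℝ) + ζ j with hc0
  set C : J → Fin p → ℚ := fun j t => -d t j with hC
  have hP : ∀ v : J → ℝ, ∃ (x : J → ℝ) (P : Finset I × Finset J), v ∈ F → ‖x - v‖ ≤ δ / 3 ∧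
      P ∈ Pats A univ univ b0 (fun _ => Fin.elim0 : I → Fin 0 → ℚ) c0 C ∧
      (∀ j, j ∉ P.2 → x j = 0) ∧ ∀ i ∈ P.1, ∑ j, (A i j : ℝ) * x j = b0 i := by
    intro v
    by_cases hv : v ∈ F
    · obtain ⟨x, hx, hxv, hxm⟩ := hst v hv b0 (fun j => -aff c0 C (μ' v) j)
        (fun i => ⟨by rw [hb0]; simp only; linarith [(hη i).1], by
          rw [hb0]; simp only; linarith [(hη i).2, hle v hv]⟩)
        (by
          intro j
          have e : -aff c0 C (μ' v) j - combo c d (μ v) j =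
              -ζ j + ∑ t, ((μ' v t : ℝ) - μ v t) * (d t j : ℝ) := by
            unfold aff combo
            rw [hc0, hC]
            simp only [sub_mul, sum_sub_distrib]
            push_cast
            have e1 : ∑ t, -(d t j : ℝ) * (μ' v t : ℝ) = -∑ t, (μ' v t : ℝ) * (d t j : ℝ) := by
              rw [← sum_neg_distrib]
              exact sum_congr rfl fun t _ => by ring
            rw [e1]
            ring
          rw [e]
          have h1 := abs_le.1 (hμ' v j)
          have h2 := hζ j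
          have h3 := hle v hv
          rw [abs_le]
          constructor <;> linarith [h1.1, h1.2, h2.1, h2.2])
      obtain ⟨P, hP, h1, h2⟩ := pat_of_max hb hc C (μ' v) hx hxm
      exact ⟨x, P, fun _ => ⟨hxv, hP, h1, h2⟩⟩
    · exact ⟨v, (∅, ∅), fun h => absurd h hv⟩
  choose x P hP using hP
  have hfin : (Pats A univ univ b0 (fun _ => Fin.elim0 : I → Fin 0 → ℚ) c0 C).Finite :=
    Set.toFinite _
  have hinj : Set.InjOn P F := by
    intro v hv v' hv' he
    obtain ⟨h1, h2, h3, h4⟩ := hP v hv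
    obtain ⟨h1', h2', h3', h4'⟩ := hP v' hv'
    obtain ⟨Q, hQ⟩ := pats_inv hb hc h2
    have h5 := hQ.sol h3 h4
    rw [← he] at h3' h4'
    have h6 := hQ.sol h3' h4'
    have h7 : x v = x v' := by
      ext j
      rw [h5 j, h6 j]
    by_contra hne
    have h8 := hsep (v, v') (mem_filter.2 ⟨mem_product.2 ⟨hv, hv'⟩, hne⟩)
    simp only at h8
    have h9 : ‖v - v'‖ ≤ ‖x v - v‖ + ‖x v' - v'‖ := by
      have e : v - v' = -(x v - v) + (x v' - v') := by
        rw [h7]; abel
      rw [e]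
      refine (norm_add_le _ _).trans ?_
      rw [norm_neg]
    linarith
  calc F.card = (F.image P).card := (card_image_of_injOn hinj).symm
    _ ≤ (Pats A univ univ b0 (fun _ => Fin.elim0 : I → Fin 0 → ℚ) c0 C).ncard := by
        rw [Set.ncard_eq_toFinset_card _ hfin]
        apply card_le_card
        intro Q hQ
        rw [mem_image] at hQ
        obtain ⟨v, hv, rfl⟩ := hQ
        rw [Set.Finite.mem_toFinset]
        exact (hP v hv).2.1
    _ ≤ N := hN b0 c0 hb hc C

theorem finite_of_card_le {α : Type*} {s : Set α} {N : ℕ}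
    (h : ∀ F : Finset α, (∀ a ∈ F, a ∈ s) → F.card ≤ N) : s.Finite ∧ s.ncard ≤ N := by
  have hf : s.Finite := by
    by_contra hinf
    obtain ⟨F, hF, hc⟩ := (Set.not_finite.1 hinf : s.Infinite).exists_subset_card_eq (N + 1)
    have := h F fun a ha => hF ha
    omega
  refine ⟨hf, ?_⟩
  rw [Set.ncard_eq_toFinset_card _ hf]
  exact h _ fun a ha => by simpa using ha

/-- the number of unique maximizers of a parametric program of small treedepth -/
theorem umax_ncard {A : Matrix I J ℚ} (b : I → ℚ) (c : J → ℚ) {p : ℕ} (d : Fin p → J → ℚ) {k : ℕ}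
    (hA : TDle A k univ univ) :
    {v | ∃ μ, UMax A (fun i => (b i : ℝ)) (combo c d μ) v}.Finite ∧
    {v | ∃ μ, UMax A (fun i => (b i : ℝ)) (combo c d μ) v}.ncard ≤
      ((Fintype.card I + Fintype.card J + 1) ^ 2) ^ ex k p := by
  apply finite_of_card_le
  intro F hF
  refine card_umax b c d (fun b0 c0 hb hc C => ?_) F hF
  have := count hb hc k _ _ hA 0 p (fun _ => Fin.elim0 : I → Fin 0 → ℚ) C
  rwa [zero_add] at this

end Pool.Agent.Q231.TD
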