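import Pool.Agent.Q231.TD.Root

/-!
Programs which decompose into independent parts.
-/

set_option autoImplicit false

open Finset

namespace Pool.Agent.Q231.TD

variable {I J : Type} [Fintype I] [Fintype J] [DecidableEq I] [DecidableEq J]

omit [Fintype I] in
theorem pok_restrict {A : Matrix I J ℚ} {U : Finset I} {W : Finset J} {b : I → ℝ} {R : Finset I}
    {S : Finset J} {f : I → ℕ} {g : J → ℕ} (hfg : ∀ i ∈ U, ∀ j ∈ W, A i j ≠ 0 → f i = g j)
    (h : POK A U W b R S) (t : ℕ) :
    POK A (U.filter (f · = t)) (W.filter (g · = t)) b (R.filter (f · = t)) (S.filter (g · = t)) := by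
  obtain ⟨hRU, hSW, x, p, q, r, s⟩ := h
  have key : ∀ i ∈ U, f i = t → ∑ j, (A i j : ℝ) * (if g j = t then x j else 0) =
      ∑ j, (A i j : ℝ) * x j := by
    intro i hi hft
    refine sum_congr rfl fun j _ => ?_
    by_cases hj : j ∈ S
    · by_cases hA : A i j = 0
      · rw [hA]; simp
      · rw [if_pos (by rw [← hfg i hi j (hSW hj) hA]; exact hft)]
    · rw [q j hj]; simp
  refine ⟨filter_subset_filter _ hRU, filter_subset_filter _ hSW,
    fun j => if g j = t then x j else 0, ?_, ?_, ?_, ?_⟩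
  · intro j hj
    rw [mem_filter] at hj
    simp only [hj.2, if_true]
    exact p j hj.1
  · intro j hj
    by_cases h : g j = t
    · simp only [h, if_true]
      exact q j fun h' => hj (mem_filter.2 ⟨h', h⟩)
    · simp [h]
  · intro i hi
    rw [mem_filter] at hi
    rw [key i (hRU hi.1) hi.2]
    exact r i hi.1
  · intro i hi hiR
    rw [mem_filter] at hi
    rw [key i hi.1 hi.2]
    exact s i hi.1 fun h => hiR (mem_filter.2 ⟨h, hi.2⟩)

omit [Fintype I] in
theorem pok_glue {A : Matrix I J ℚ} {U : Finset I} {W : Finset J} {b : I → ℝ} {R : Finset I}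
    {S : Finset J} {f : I → ℕ} {g : J → ℕ} (hfg : ∀ i ∈ U, ∀ j ∈ W, A i j ≠ 0 → f i = g j)
    (hRU : R ⊆ U) (hSW : S ⊆ W)
    (h : ∀ t, POK A (U.filter (f · = t)) (W.filter (g · = t)) b (R.filter (f · = t))
      (S.filter (g · = t))) : POK A U W b R S := by
  choose _ _ x p q r s using h
  have key : ∀ i ∈ U, ∑ j, (A i j : ℝ) * (if j ∈ S then x (g j) j else 0) =
      ∑ j, (A i j : ℝ) * x (f i) j := by
    intro i hi
    refine sum_congr rfl fun j _ => ?_
    by_cases hj : j ∈ S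
    · by_cases hA : A i j = 0
      · rw [hA]; simp
      · rw [if_pos hj, hfg i hi j (hSW hj) hA]
    · rw [q (f i) j fun h' => hj (mem_filter.1 h').1]; simp [hj]
  refine ⟨hRU, hSW, fun j => if j ∈ S then x (g j) j else 0, ?_, ?_, ?_, ?_⟩
  · intro j hj
    simp only [hj, if_true]
    exact p (g j) j (mem_filter.2 ⟨hj, rfl⟩)
  · intro j hj
    simp [hj]
  · intro i hi
    rw [key i (hRU hi)]
    exact r (f i) i (mem_filter.2 ⟨hi, rfl⟩)
  · intro i hi hiR
    rw [key i hi]
    exact s (f i) i (mem_filter.2 ⟨hi, rfl⟩) fun h => hiR (mem_filter.1 h).1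

theorem IsInv.neg_transpose {A : Matrix I J ℚ} {R : Finset I} {S : Finset J} {Q : J → I → ℚ}
    (h : IsInv A R S Q) : IsInv (-A.transpose) S R fun i j => -Q j i where
  offS i j hi := by rw [h.offR j i hi, neg_zero]
  offR i j hj := by rw [h.offS j i hj, neg_zero]
  right j hj j' hj' := by
    have h1 := h.left j' hj' j hj
    have h2 : ∑ i, (-A.transpose) j i * -Q j' i = ∑ i, Q j' i * A i j :=
      sum_congr rfl fun i _ => by rw [Matrix.neg_apply, Matrix.transpose_apply]; ring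
    rw [h2, h1]
    simp only [eq_comm]
  left i hi i' hi' := by
    have h1 := h.right i' hi' i hi
    have h2 : ∑ j, -Q j i * (-A.transpose) j i' = ∑ j, A i' j * Q j i :=
      sum_congr rfl fun i _ => by rw [Matrix.neg_apply, Matrix.transpose_apply]; ring
    rw [h2, h1]
    simp only [eq_comm]

theorem card_overlay {a D : ℕ} {A : Matrix I J ℚ} {U : Finset I} {W : Finset J} {b0 : I → ℝ}
    (B : I → Fin a → ℚ) {c0 : J → ℝ} (C : J → Fin D → ℚ) (hb : Gen b0) (hc : Gen c0)
    (f : I → ℕ) (g : J → ℕ) (hfg : ∀ i ∈ U, ∀ j ∈ W, A i j ≠ 0 → f i = g j) (M : ℕ)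
    (hM : ∀ t, (Pats A (U.filter (f · = t)) (W.filter (g · = t)) b0 B c0 C).ncard ≤ M) :
    (Pats A U W b0 B c0 C).ncard ≤ ((U.card + W.card) * M + 1) ^ (a + D) := by
  classical
  have hfg' : ∀ j ∈ W, ∀ i ∈ U, (-A.transpose) j i ≠ 0 → g j = f i := by
    intro j hj i hi h
    refine (hfg i hi j hj fun h' => h ?_).symm
    rw [Matrix.neg_apply, Matrix.transpose_apply, h', neg_zero]
  let lab : I ⊕ J → ℕ := Sum.elim f g
  let X : ℕ → Set (Finset I × Finset J) := fun t =>
    Pats A (U.filter (f · = t)) (W.filter (g · = t)) b0 B c0 C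
  have hX : ∀ t, (X t).Finite := fun t => Set.toFinite _
  -- the inverses
  let Qf : Finset I × Finset J → J → I → ℚ := fun P =>
    if h : ∃ Q, IsInv A P.1 P.2 Q then h.choose else 0
  have hQf : ∀ t, ∀ P ∈ X t, IsInv A P.1 P.2 (Qf P) := by
    intro t P hP
    have h := pats_inv hb hc hP
    have h1 : Qf P = h.choose := dif_pos h
    rw [h1]
    exact h.choose_spec
  let s : Finset ((Finset I × Finset J) × (I ⊕ J)) :=
    (U.disjSum W).biUnion fun e => (hX (lab e)).toFinset.image fun P => (P, e)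
  have hs : ∀ P e, (P, e) ∈ s ↔ e ∈ U.disjSum W ∧ P ∈ X (lab e) := by
    intro P e
    simp only [s, mem_biUnion, mem_image, Set.Finite.mem_toFinset, Prod.mk.injEq]
    constructor
    · rintro ⟨e', he', P', hP', rfl, rfl⟩
      exact ⟨he', hP'⟩
    · rintro ⟨he, hP⟩
      exact ⟨e, he, P, hP, rfl, rfl⟩
  have hscard : s.card ≤ (U.card + W.card) * M := by
    calc s.card ≤ ∑ e ∈ U.disjSum W, ((hX (lab e)).toFinset.image fun P => (P, e)).card :=
          card_biUnion_le
      _ ≤ ∑ e ∈ U.disjSum W, M := by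
          refine sum_le_sum fun e _ => ?_
          refine card_image_le.trans ?_
          rw [← Set.ncard_eq_toFinset_card _ (hX (lab e))]
          exact hM _
      _ = (U.card + W.card) * M := by rw [sum_const, card_disjSum, smul_eq_mul]
  -- the functions
  let l : ((Finset I × Finset J) × (I ⊕ J)) → (Fin a → ℝ) →ₗ[ℝ] ℝ := fun k =>
    (fnL A k.1.1 k.1.2 (Qf k.1) k.2).comp (lin B)
  let r : ((Finset I × Finset J) × (I ⊕ J)) → ℝ := fun k =>
    fn A k.1.1 k.1.2 (Qf k.1) b0 k.2 + cst k.1.1 k.1.2 k.2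
  let l' : ((Finset I × Finset J) × (I ⊕ J)) → (Fin D → ℝ) →ₗ[ℝ] ℝ := fun k =>
    (fnL (-A.transpose) k.1.2 k.1.1 (fun i j => -Qf k.1 j i) k.2.swap).comp (lin C)
  let r' : ((Finset I × Finset J) × (I ⊕ J)) → ℝ := fun k =>
    fn (-A.transpose) k.1.2 k.1.1 (fun i j => -Qf k.1 j i) c0 k.2.swap + cst k.1.2 k.1.1 k.2.swap
  have hl := card_posSets s a (Fin a → ℝ) l r (by simp)
  have hl' := card_posSets s D (Fin D → ℝ) l' r' (by simp)
  -- the witnesses
  have hw : ∀ P : Finset I × Finset J, ∃ (β : Fin a → ℚ) (μ : Fin D → ℚ),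
      P ∈ Pats A U W b0 B c0 C → POK A U W (aff b0 B β) P.1 P.2 ∧
        POK (-A.transpose) W U (aff c0 C μ) P.2 P.1 := by
    intro P
    by_cases h : P ∈ Pats A U W b0 B c0 C
    · obtain ⟨⟨β, hβ⟩, μ, hμ⟩ := h
      exact ⟨β, μ, fun _ => ⟨hβ, hμ⟩⟩
    · exact ⟨0, 0, fun h' => absurd h' h⟩
  choose β μ hw using hw
  let Φ : Finset I × Finset J → Finset ((Finset I × Finset J) × (I ⊕ J)) ×
      Finset ((Finset I × Finset J) × (I ⊕ J)) := fun P =>
    (s.filter fun k => 0 < l k (fun t => (β P t : ℝ)) + r k,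
      s.filter fun k => 0 < l' k (fun t => (μ P t : ℝ)) + r' k)
  have himg : Φ '' Pats A U W b0 B c0 C ⊆ posSets l r s ×ˢ posSets l' r' s := by
    rintro _ ⟨P, -, rfl⟩
    exact ⟨⟨_, rfl⟩, ⟨_, rfl⟩⟩
  have hinj : Set.InjOn Φ (Pats A U W b0 B c0 C) := by
    intro P₁ h₁ P₂ h₂ he
    obtain ⟨p₁, d₁⟩ := hw P₁ h₁
    obtain ⟨p₂, d₂⟩ := hw P₂ h₂
    simp only [Φ, Prod.mk.injEq] at he
    obtain ⟨he1, he2⟩ := he
    -- the parts of `P₁`
    have hpart : ∀ t, (P₁.1.filter (f · = t), P₁.2.filter (g · = t)) ∈ X t := by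
      intro t
      exact ⟨⟨β P₁, pok_restrict hfg p₁ t⟩, μ P₁, pok_restrict hfg' d₁ t⟩
    have hp : POK A U W (aff b0 B (β P₂)) P₁.1 P₁.2 := by
      refine pok_glue hfg p₁.1 p₁.2.1 fun t => ?_
      have h3 := pok_restrict hfg p₁ t
      have h3a := h3.1
      have h3b := h3.2.1
      rw [pok_aff_iff (hQf t _ (hpart t)) h3a h3b] at h3 ⊢
      intro e he
      have h4 := h3 e he
      have hlab : e ∈ U.disjSum W ∧ lab e = t := by
        rcases e with i | j
        · rw [inl_mem_disjSum, mem_filter] at he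
          exact ⟨inl_mem_disjSum.2 he.1, he.2⟩
        · rw [inr_mem_disjSum, mem_filter] at he
          exact ⟨inr_mem_disjSum.2 he.1, he.2⟩
      have h5 : ((P₁.1.filter (f · = t), P₁.2.filter (g · = t)), e) ∈ s := by
        rw [hs, hlab.2]
        exact ⟨hlab.1, hpart t⟩
      have h6 : ((P₁.1.filter (f · = t), P₁.2.filter (g · = t)), e) ∈
          s.filter fun k => 0 < l k (fun t => (β P₁ t : ℝ)) + r k := mem_filter.2 ⟨h5, h4⟩
      rw [he1] at h6
      exact (mem_filter.1 h6).2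
    have hd : POK (-A.transpose) W U (aff c0 C (μ P₂)) P₁.2 P₁.1 := by
      refine pok_glue hfg' d₁.1 d₁.2.1 fun t => ?_
      have h3 := pok_restrict hfg' d₁ t
      have h3a := h3.1
      have h3b := h3.2.1
      rw [pok_aff_iff (hQf t _ (hpart t)).neg_transpose h3a h3b] at h3 ⊢
      intro e he
      have h4 := h3 e he
      have hlab : e.swap ∈ U.disjSum W ∧ lab e.swap = t := by
        rcases e with j | i
        · rw [inl_mem_disjSum, mem_filter] at he
          exact ⟨inr_mem_disjSum.2 he.1, he.2⟩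
        · rw [inr_mem_disjSum, mem_filter] at he
          exact ⟨inl_mem_disjSum.2 he.1, he.2⟩
      have h5 : ((P₁.1.filter (f · = t), P₁.2.filter (g · = t)), e.swap) ∈ s := by
        rw [hs, hlab.2]
        exact ⟨hlab.1, hpart t⟩
      have h6 : ((P₁.1.filter (f · = t), P₁.2.filter (g · = t)), e.swap) ∈
          s.filter fun k => 0 < l' k (fun t => (μ P₁ t : ℝ)) + r' k := by
        refine mem_filter.2 ⟨h5, ?_⟩
        simp only [l', r', Sum.swap_swap]
        exact h4
      rw [he2] at h6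
      have h7 := (mem_filter.1 h6).2
      simp only [l', r', Sum.swap_swap] at h7
      exact h7
    exact pat_unique hp hd p₂ d₂
  calc (Pats A U W b0 B c0 C).ncard = (Φ '' Pats A U W b0 B c0 C).ncard :=
        (Set.ncard_image_of_injOn hinj).symm
    _ ≤ (posSets l r s ×ˢ posSets l' r' s).ncard :=
        Set.ncard_le_ncard himg ((posSets_finite l r s).prod (posSets_finite l' r' s))
    _ = (posSets l r s).ncard * (posSets l' r' s).ncard := Set.ncard_prod
    _ ≤ (s.card + 1) ^ a * (s.card + 1) ^ D := Nat.mul_le_mul hl hl'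
    _ = (s.card + 1) ^ (a + D) := (pow_add _ _ _).symm
    _ ≤ ((U.card + W.card) * M + 1) ^ (a + D) := Nat.pow_le_pow_left (by omega) _

end Pool.Agent.Q231.TD
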