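import Pool.Agent.Q231.TD.Reg

/-!
Patterns: which variables and slacks of a nondegenerate linear program are positive at the
optimum.
-/

set_option autoImplicit false

open Finset

namespace Pool.Agent.Q231.TD

variable {I J : Type} [Fintype I] [Fintype J] [DecidableEq I] [DecidableEq J]

/-- there is a point `x ≥ 0`, supported on `S ⊆ W`, with `A x ≤ b` on the rows in `U`, tight exactly
on the rows in `R ⊆ U`, positive exactly on `S` -/
def POK (A : Matrix I J ℚ) (U : Finset I) (W : Finset J) (b : I → ℝ) (R : Finset I)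
    (S : Finset J) : Prop :=
  R ⊆ U ∧ S ⊆ W ∧ ∃ x : J → ℝ, (∀ j ∈ S, 0 < x j) ∧ (∀ j, j ∉ S → x j = 0) ∧
    (∀ i ∈ R, ∑ j, (A i j : ℝ) * x j = b i) ∧ ∀ i ∈ U, i ∉ R → ∑ j, (A i j : ℝ) * x j < b i

/-- right-hand sides with parameters -/
def aff {I : Type} {a : ℕ} (b0 : I → ℝ) (B : I → Fin a → ℚ) (β : Fin a → ℚ) (i : I) : ℝ :=
  b0 i + ∑ t, (B i t : ℝ) * (β t : ℝ)

/-- `1` and the numbers `b0 i` are linearly independent over the rationals -/
def Gen {I : Type} [Fintype I] (b0 : I → ℝ) : Prop :=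
  ∀ (q : I → ℚ) (q0 : ℚ), ∑ i, (q i : ℝ) * b0 i + (q0 : ℝ) = 0 → ∀ i, q i = 0

theorem gen_aff {a : ℕ} {b0 : I → ℝ} (h : Gen b0) (B : I → Fin a → ℚ) (β : Fin a → ℚ)
    (q : I → ℚ) (hq : ∑ i, (q i : ℝ) * aff b0 B β i = 0) : ∀ i, q i = 0 := by
  apply h q (∑ i, q i * ∑ t, B i t * β t)
  rw [← hq]
  push_cast
  rw [← sum_add_distrib]
  refine sum_congr rfl fun i _ => ?_
  unfold aff
  ring

/-- the rows are independent -/
theorem rows_indep {a : ℕ} {b0 : I → ℝ} (h : Gen b0) (B : I → Fin a → ℚ) (β : Fin a → ℚ)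
    {A : Matrix I J ℚ} {R : Finset I} {S : Finset J} {x : J → ℝ} (hx : ∀ j, j ∉ S → x j = 0)
    (hR : ∀ i ∈ R, ∑ j, (A i j : ℝ) * x j = aff b0 B β i)
    (q : I → ℚ) (hq : ∀ i, i ∉ R → q i = 0) (hqS : ∀ j ∈ S, ∑ i, q i * A i j = 0) :
    ∀ i, q i = 0 := by
  apply gen_aff h B β
  have h1 : ∀ i, (q i : ℝ) * aff b0 B β i = ∑ j, (q i : ℝ) * ((A i j : ℝ) * x j) := by
    intro i
    by_cases hi : i ∈ R
    · rw [← hR i hi, mul_sum]
    · rw [hq i hi]; simp
  rw [sum_congr rfl fun i _ => h1 i, sum_comm]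
  apply sum_eq_zero
  intro j _
  by_cases hj : j ∈ S
  · have := hqS j hj
    have h2 : ∑ i, (q i : ℝ) * (A i j : ℝ) = 0 := by exact_mod_cast this
    calc ∑ i, (q i : ℝ) * ((A i j : ℝ) * x j) = (∑ i, (q i : ℝ) * (A i j : ℝ)) * x j := by
          rw [sum_mul]; exact sum_congr rfl fun i _ => by ring
      _ = 0 := by rw [h2, zero_mul]
  · rw [hx j hj]; simp

theorem card_le_card_of_indep {A : Matrix I J ℚ} {R : Finset I} {S : Finset J}
    (h : ∀ q : I → ℚ, (∀ i, i ∉ R → q i = 0) → (∀ j ∈ S, ∑ i, q i * A i j = 0) → ∀ i, q i = 0) :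
    R.card ≤ S.card := by
  classical
  let L : (R → ℚ) →ₗ[ℚ] (S → ℚ) :=
    { toFun := fun q j => ∑ i : R, q i * A i j
      map_add' := by
        intro p q; ext j; simp [add_mul, sum_add_distrib]
      map_smul' := by
        intro c q; ext j
        simp only [Pi.smul_apply, smul_eq_mul, RingHom.id_apply, mul_sum]
        exact sum_congr rfl fun i _ => by ring }
  have hL : Function.Injective L := by
    rw [injective_iff_map_eq_zero]
    intro q hq
    have h1 := h (fun i => if hi : i ∈ R then q ⟨i, hi⟩ else 0) (fun i hi => by simp [hi])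
      (fun j hj => by
        have h2 : L q ⟨j, hj⟩ = 0 := by rw [hq]; rfl
        have h3 : L q ⟨j, hj⟩ = ∑ i : R, q i * A i j := rfl
        rw [h3] at h2
        refine Eq.trans ?_ h2
        rw [← sum_subset (subset_univ R) (f := fun i => (if hi : i ∈ R then q ⟨i, hi⟩ else 0) *
          A i j) (fun i _ hi => by simp [hi]), ← sum_coe_sort R]
        refine sum_congr rfl fun i _ => ?_
        simp)
    ext i
    have := h1 i
    simpa using this
  have := LinearMap.finrank_le_finrank_of_injective hL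
  simpa using this

theorem card_le_card_of_sol {a : ℕ} {b0 : I → ℝ} (h : Gen b0) (B : I → Fin a → ℚ) (β : Fin a → ℚ)
    {A : Matrix I J ℚ} {R : Finset I} {S : Finset J} {x : J → ℝ} (hx : ∀ j, j ∉ S → x j = 0)
    (hR : ∀ i ∈ R, ∑ j, (A i j : ℝ) * x j = aff b0 B β i) : R.card ≤ S.card :=
  card_le_card_of_indep fun q hq hqS => rows_indep h B β hx hR q hq hqS

/-- the inverse of the submatrix with rows in `R` and columns in `S` -/
structure IsInv (A : Matrix I J ℚ) (R : Finset I) (S : Finset J) (Q : J → I → ℚ) : Prop where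
  offS : ∀ j i, j ∉ S → Q j i = 0
  offR : ∀ j i, i ∉ R → Q j i = 0
  right : ∀ i ∈ R, ∀ i' ∈ R, ∑ j, A i j * Q j i' = if i = i' then 1 else 0
  left : ∀ j ∈ S, ∀ j' ∈ S, ∑ i, Q j i * A i j' = if j = j' then 1 else 0

theorem exists_inv {A : Matrix I J ℚ} {R : Finset I} {S : Finset J}
    (h1 : ∀ q : I → ℚ, (∀ i, i ∉ R → q i = 0) → (∀ j ∈ S, ∑ i, q i * A i j = 0) → ∀ i, q i = 0)
    (h2 : ∀ p : J → ℚ, (∀ j, j ∉ S → p j = 0) → (∀ i ∈ R, ∑ j, A i j * p j = 0) → ∀ j, p j = 0) :
    ∃ Q, IsInv A R S Q := by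
  classical
  have hc1 := card_le_card_of_indep h1
  have hc2 : S.card ≤ R.card := by
    apply card_le_card_of_indep (A := A.transpose)
    intro p hp hpR
    apply h2 p hp
    intro i hi
    rw [← hpR i hi]
    exact sum_congr rfl fun j _ => by rw [Matrix.transpose_apply]; ring
  have hc : Fintype.card R = Fintype.card S := by
    rw [Fintype.card_coe, Fintype.card_coe]; omega
  let e : R ≃ S := Fintype.equivOfCardEq hc
  let N : Matrix R R ℚ := fun i i' => A i (e i')
  have hinj : Function.Injective N.mulVec := by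
    have : Function.Injective N.mulVecLin := by
      rw [injective_iff_map_eq_zero]
      intro v hv
      have h3 := h2 (fun j => if hj : j ∈ S then v (e.symm ⟨j, hj⟩) else 0)
        (fun j hj => by simp [hj])
        (fun i hi => by
          have h4 : N.mulVecLin v ⟨i, hi⟩ = 0 := by rw [hv]; rfl
          rw [Matrix.mulVecLin_apply] at h4
          refine Eq.trans ?_ h4
          rw [← sum_subset (subset_univ S) (f := fun j => A i j *
            (if hj : j ∈ S then v (e.symm ⟨j, hj⟩) else 0)) (fun j _ hj => by simp [hj]),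
            ← sum_coe_sort S, ← Equiv.sum_comp e]
          unfold Matrix.mulVec dotProduct
          refine sum_congr rfl fun i' _ => ?_
          simp [N])
      ext i
      have := h3 (e i)
      simpa using this
    exact this
  have hu : IsUnit N := Matrix.mulVec_injective_iff_isUnit.1 hinj
  have hdet : IsUnit N.det := (Matrix.isUnit_iff_isUnit_det N).1 hu
  have hr : N * N⁻¹ = 1 := Matrix.mul_nonsing_inv N hdet
  have hl : N⁻¹ * N = 1 := Matrix.nonsing_inv_mul N hdet
  refine ⟨fun j i => if hj : j ∈ S then if hi : i ∈ R then N⁻¹ (e.symm ⟨j, hj⟩) ⟨i, hi⟩ else 0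
    else 0, ?_, ?_, ?_, ?_⟩
  · intro j i hj; simp [hj]
  · intro j i hi; simp [hi]
  · intro i hi i' hi'
    have h3 := congrFun (congrFun hr ⟨i, hi⟩) ⟨i', hi'⟩
    rw [Matrix.mul_apply] at h3
    rw [← sum_subset (subset_univ S) (fun j _ hj => by simp [hj]), ← sum_coe_sort S,
      ← Equiv.sum_comp e]
    rw [Matrix.one_apply] at h3
    simp only [Subtype.mk.injEq] at h3
    rw [← h3]
    refine sum_congr rfl fun k _ => ?_
    simp [N, hi']
  · intro j hj j' hj'
    have h3 := congrFun (congrFun hl (e.symm ⟨j, hj⟩)) (e.symm ⟨j', hj'⟩)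
    rw [Matrix.mul_apply] at h3
    rw [← sum_subset (subset_univ R) (fun i _ hi => by simp [hi]), ← sum_coe_sort R]
    rw [Matrix.one_apply] at h3
    simp only [EmbeddingLike.apply_eq_iff_eq, Subtype.mk.injEq] at h3
    rw [← h3]
    refine sum_congr rfl fun k _ => ?_
    simp [N, hj]

/-- the solution is given by the inverse -/
theorem IsInv.sol {A : Matrix I J ℚ} {R : Finset I} {S : Finset J} {Q : J → I → ℚ}
    (hQ : IsInv A R S Q) {x : J → ℝ} {b : I → ℝ} (hx : ∀ j, j ∉ S → x j = 0)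
    (hR : ∀ i ∈ R, ∑ j, (A i j : ℝ) * x j = b i) : ∀ j, x j = ∑ i, (Q j i : ℝ) * b i := by
  intro j
  by_cases hj : j ∈ S
  · have h1 : ∀ i, (Q j i : ℝ) * b i = ∑ j', ((Q j i : ℝ) * (A i j' : ℝ)) * x j' := by
      intro i
      by_cases hi : i ∈ R
      · rw [← hR i hi, mul_sum]
        exact sum_congr rfl fun j' _ => by ring
      · rw [hQ.offR j i hi]; simp
    rw [sum_congr rfl fun i _ => h1 i, sum_comm]
    have h2 : ∀ j', ∑ i, ((Q j i : ℝ) * (A i j' : ℝ)) * x j' = if j = j' then x j' else 0 := by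
      intro j'
      by_cases hj' : j' ∈ S
      · have h3 : ∑ i, (Q j i : ℝ) * (A i j' : ℝ) = if j = j' then 1 else 0 := by
          have := hQ.left j hj j' hj'
          have h4 : ((∑ i, Q j i * A i j' : ℚ) : ℝ) = ((if j = j' then 1 else 0 : ℚ) : ℝ) := by
            rw [this]
          split_ifs at h4 ⊢ <;> push_cast at h4 <;> exact h4
        rw [← sum_mul, h3]
        split_ifs <;> simp
      · rw [hx j' hj']; simp
    rw [sum_congr rfl fun j' _ => h2 j']
    simp
  · rw [hx j hj]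
    symm
    apply sum_eq_zero
    intro i _
    rw [hQ.offS j i hj]; simp

theorem IsInv.solve {A : Matrix I J ℚ} {R : Finset I} {S : Finset J} {Q : J → I → ℚ}
    (hQ : IsInv A R S Q) (b : I → ℝ) :
    ∀ i ∈ R, ∑ j, (A i j : ℝ) * ∑ i', (Q j i' : ℝ) * b i' = b i := by
  intro i hi
  have h1 : ∀ j, (A i j : ℝ) * ∑ i', (Q j i' : ℝ) * b i' =
      ∑ i', ((A i j : ℝ) * (Q j i' : ℝ)) * b i' := by
    intro j
    rw [mul_sum]
    exact sum_congr rfl fun i' _ => by ring
  rw [sum_congr rfl fun j _ => h1 j, sum_comm]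
  have h2 : ∀ i', ∑ j, ((A i j : ℝ) * (Q j i' : ℝ)) * b i' = if i = i' then b i' else 0 := by
    intro i'
    by_cases hi' : i' ∈ R
    · have h3 : ∑ j, (A i j : ℝ) * (Q j i' : ℝ) = if i = i' then 1 else 0 := by
        have := hQ.right i hi i' hi'
        have h4 : ((∑ j, A i j * Q j i' : ℚ) : ℝ) = ((if i = i' then 1 else 0 : ℚ) : ℝ) := by
          rw [this]
        split_ifs at h4 ⊢ <;> push_cast at h4 <;> exact h4
      rw [← sum_mul, h3]
      split_ifs <;> simp
    · have hne : i ≠ i' := fun h => hi' (h ▸ hi)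
      rw [if_neg hne]
      apply sum_eq_zero
      intro j _
      rw [hQ.offR j i' hi']; simp
  rw [sum_congr rfl fun i' _ => h2 i']
  simp

/-- the linear functionals which decide about a pattern -/
noncomputable def fn (A : Matrix I J ℚ) (R : Finset I) (S : Finset J) (Q : J → I → ℚ) (b : I → ℝ) :
    I ⊕ J → ℝ
  | Sum.inl i => if i ∈ R then 0 else b i - ∑ j, (A i j : ℝ) * ∑ i', (Q j i' : ℝ) * b i'
  | Sum.inr j => if j ∈ S then ∑ i, (Q j i : ℝ) * b i else 0

/-- the constants -/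
def cst (R : Finset I) (S : Finset J) : I ⊕ J → ℝ
  | Sum.inl i => if i ∈ R then 1 else 0
  | Sum.inr j => if j ∈ S then 0 else 1

theorem pok_iff {A : Matrix I J ℚ} {U : Finset I} {W : Finset J} {R : Finset I} {S : Finset J}
    {Q : J → I → ℚ} (hQ : IsInv A R S Q) (hRU : R ⊆ U) (hSW : S ⊆ W) (b : I → ℝ) :
    POK A U W b R S ↔ ∀ e ∈ U.disjSum W, 0 < fn A R S Q b e + cst R S e := by
  constructor
  · rintro ⟨-, -, x, h1, h2, h3, h4⟩ e he
    have hsol := hQ.sol h2 h3
    rcases e with i | j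
    · rw [inl_mem_disjSum] at he
      by_cases hi : i ∈ R
      · simp [fn, cst, hi]
      · simp only [fn, cst, hi, if_false, add_zero]
        have h5 := h4 i he hi
        have h6 : ∑ j, (A i j : ℝ) * x j = ∑ j, (A i j : ℝ) * ∑ i', (Q j i' : ℝ) * b i' :=
          sum_congr rfl fun j _ => by rw [hsol j]
        linarith
    · by_cases hj : j ∈ S
      · simp only [fn, cst, hj, if_true, add_zero]
        rw [← hsol j]
        exact h1 j hj
      · simp [fn, cst, hj]
  · intro h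
    refine ⟨hRU, hSW, fun j => ∑ i, (Q j i : ℝ) * b i, ?_, ?_, hQ.solve b, ?_⟩
    · intro j hj
      have := h (Sum.inr j) (inr_mem_disjSum.2 (hSW hj))
      simpa [fn, cst, hj] using this
    · intro j hj
      apply sum_eq_zero
      intro i _
      rw [hQ.offS j i hj]; simp
    · intro i hi hiR
      have := h (Sum.inl i) (inl_mem_disjSum.2 hi)
      simp only [fn, cst, hiR, if_false, add_zero] at this
      linarith

/-- the functionals are linear -/
noncomputable def fnL (A : Matrix I J ℚ) (R : Finset I) (S : Finset J) (Q : J → I → ℚ) (e : I ⊕ J) :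
    (I → ℝ) →ₗ[ℝ] ℝ where
  toFun b := fn A R S Q b e
  map_add' b b' := by
    rcases e with i | j
    · simp only [fn, Pi.add_apply]
      split_ifs
      · simp
      · have : ∀ j, (A i j : ℝ) * ∑ i', (Q j i' : ℝ) * (b i' + b' i') =
            (A i j : ℝ) * ∑ i', (Q j i' : ℝ) * b i' + (A i j : ℝ) * ∑ i', (Q j i' : ℝ) * b' i' := by
          intro j
          rw [← mul_add, ← sum_add_distrib]
          congr 1
          exact sum_congr rfl fun i' _ => by ring
        rw [sum_congr rfl fun j _ => this j, sum_add_distrib]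
        ring
    · simp only [fn, Pi.add_apply]
      split_ifs
      · rw [← sum_add_distrib]
        exact sum_congr rfl fun i' _ => by ring
      · simp
  map_smul' c b := by
    rcases e with i | j
    · simp only [fn, Pi.smul_apply, smul_eq_mul, RingHom.id_apply]
      split_ifs
      · simp
      · have : ∀ j, (A i j : ℝ) * ∑ i', (Q j i' : ℝ) * (c * b i') =
            c * ((A i j : ℝ) * ∑ i', (Q j i' : ℝ) * b i') := by
          intro j
          have : ∑ i', (Q j i' : ℝ) * (c * b i') = c * ∑ i', (Q j i' : ℝ) * b i' := by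
            rw [mul_sum]
            exact sum_congr rfl fun i' _ => by ring
          rw [this]; ring
        rw [sum_congr rfl fun j _ => this j, ← mul_sum]
        ring
    · simp only [fn, Pi.smul_apply, smul_eq_mul, RingHom.id_apply]
      split_ifs
      · rw [mul_sum]
        exact sum_congr rfl fun i' _ => by ring
      · simp

/-- the linear part of the right-hand side -/
noncomputable def lin {a : ℕ} (B : I → Fin a → ℚ) : (Fin a → ℝ) →ₗ[ℝ] (I → ℝ) where
  toFun β i := ∑ t, (B i t : ℝ) * β t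
  map_add' β β' := by
    ext i
    simp only [Pi.add_apply, mul_add, sum_add_distrib]
  map_smul' c β := by
    ext i
    simp only [Pi.smul_apply, smul_eq_mul, RingHom.id_apply]
    rw [mul_sum]
    exact sum_congr rfl fun i' _ => by ring

theorem pok_aff_iff {A : Matrix I J ℚ} {U : Finset I} {W : Finset J} {R : Finset I} {S : Finset J}
    {Q : J → I → ℚ} (hQ : IsInv A R S Q) (hRU : R ⊆ U) (hSW : S ⊆ W) {a : ℕ} (b0 : I → ℝ)
    (B : I → Fin a → ℚ) (β : Fin a → ℚ) :
    POK A U W (aff b0 B β) R S ↔ ∀ e ∈ U.disjSum W,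
      0 < ((fnL A R S Q e).comp (lin B)) (fun t => (β t : ℝ)) + (fn A R S Q b0 e + cst R S e) := by
  rw [pok_iff hQ hRU hSW]
  have h : ∀ e, fn A R S Q (aff b0 B β) e = ((fnL A R S Q e).comp (lin B)) (fun t => (β t : ℝ)) +
      fn A R S Q b0 e := by
    intro e
    have h1 : aff b0 B β = (lin B) (fun t => (β t : ℝ)) + b0 := by
      ext i
      show b0 i + ∑ t, (B i t : ℝ) * (β t : ℝ) = ∑ t, (B i t : ℝ) * (β t : ℝ) + b0 i
      ring
    have h2 : fn A R S Q (aff b0 B β) e = fnL A R S Q e (aff b0 B β) := rfl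
    rw [h2, h1, map_add]
    rfl
  refine forall₂_congr fun e _ => ?_
  rw [h e, add_assoc]

/-- complementary slackness: the pattern of a nondegenerate optimum is unique -/
theorem pat_subset {A : Matrix I J ℚ} {U : Finset I} {W : Finset J} {b : I → ℝ} {c : J → ℝ}
    {R₁ R₂ : Finset I} {S₁ S₂ : Finset J} (h1 : POK A U W b R₁ S₁)
    (h1' : POK (-A.transpose) W U c S₁ R₁) (h2 : POK A U W b R₂ S₂)
    (h2' : POK (-A.transpose) W U c S₂ R₂) : S₁ ⊆ S₂ ∧ R₂ ⊆ R₁ := by
  obtain ⟨hRU1, hSW1, x1, p1, q1, r1, s1⟩ := h1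
  obtain ⟨-, -, z1, p1', q1', r1', s1'⟩ := h1'
  obtain ⟨hRU2, hSW2, x2, p2, q2, r2, s2⟩ := h2
  obtain ⟨-, -, z2, p2', q2', r2', s2'⟩ := h2'
  -- the gap
  have key : ∀ (x : J → ℝ) (z : I → ℝ), (∀ j, j ∉ W → x j = 0) → (∀ i, i ∉ U → z i = 0) →
      ∑ j, x j * (c j - ∑ i, ((-A.transpose) j i : ℝ) * z i) +
      ∑ i, z i * (b i - ∑ j, (A i j : ℝ) * x j) = ∑ j, x j * c j + ∑ i, z i * b i := by
    intro x z _ _
    have e1 : ∑ j, x j * (c j - ∑ i, ((-A.transpose) j i : ℝ) * z i) =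
        ∑ j, x j * c j + ∑ j, ∑ i, x j * ((A i j : ℝ) * z i) := by
      rw [← sum_add_distrib]
      refine sum_congr rfl fun j _ => ?_
      have : ∑ i, ((-A.transpose) j i : ℝ) * z i = - ∑ i, (A i j : ℝ) * z i := by
        rw [← sum_neg_distrib]
        refine sum_congr rfl fun i _ => ?_
        rw [Matrix.neg_apply, Matrix.transpose_apply]
        push_cast
        ring
      rw [this, sub_neg_eq_add, mul_add, mul_sum]
    have e2 : ∑ i, z i * (b i - ∑ j, (A i j : ℝ) * x j) =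
        ∑ i, z i * b i - ∑ j, ∑ i, x j * ((A i j : ℝ) * z i) := by
      rw [sum_comm (f := fun j i => x j * ((A i j : ℝ) * z i)), ← sum_sub_distrib]
      refine sum_congr rfl fun i _ => ?_
      rw [mul_sub, mul_sum]
      congr 1
      exact sum_congr rfl fun j _ => by ring
    rw [e1, e2]; ring
  have zx1 : ∀ j, j ∉ W → x1 j = 0 := fun j hj => q1 j fun h => hj (hSW1 h)
  have zx2 : ∀ j, j ∉ W → x2 j = 0 := fun j hj => q2 j fun h => hj (hSW2 h)
  have zz1 : ∀ i, i ∉ U → z1 i = 0 := fun i hi => q1' i fun h => hi (hRU1 h)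
  have zz2 : ∀ i, i ∉ U → z2 i = 0 := fun i hi => q2' i fun h => hi (hRU2 h)
  have nx1 : ∀ j, 0 ≤ x1 j := fun j => by
    by_cases h : j ∈ S₁
    · exact (p1 j h).le
    · exact (q1 j h).ge
  have nx2 : ∀ j, 0 ≤ x2 j := fun j => by
    by_cases h : j ∈ S₂
    · exact (p2 j h).le
    · exact (q2 j h).ge
  have nz1 : ∀ i, 0 ≤ z1 i := fun i => by
    by_cases h : i ∈ R₁
    · exact (p1' i h).le
    · exact (q1' i h).ge
  have nz2 : ∀ i, 0 ≤ z2 i := fun i => by
    by_cases h : i ∈ R₂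
    · exact (p2' i h).le
    · exact (q2' i h).ge
  -- slacks
  have sx1 : ∀ i ∈ U, 0 ≤ b i - ∑ j, (A i j : ℝ) * x1 j := fun i hi => by
    by_cases h : i ∈ R₁
    · rw [r1 i h, sub_self]
    · linarith [s1 i hi h]
  have sx2 : ∀ i ∈ U, 0 ≤ b i - ∑ j, (A i j : ℝ) * x2 j := fun i hi => by
    by_cases h : i ∈ R₂
    · rw [r2 i h, sub_self]
    · linarith [s2 i hi h]
  have sz1 : ∀ j ∈ W, 0 ≤ c j - ∑ i, ((-A.transpose) j i : ℝ) * z1 i := fun j hj => by
    by_cases h : j ∈ S₁
    · rw [r1' j h, sub_self]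
    · linarith [s1' j hj h]
  have sz2 : ∀ j ∈ W, 0 ≤ c j - ∑ i, ((-A.transpose) j i : ℝ) * z2 i := fun j hj => by
    by_cases h : j ∈ S₂
    · rw [r2' j h, sub_self]
    · linarith [s2' j hj h]
  have k11 := key x1 z1 zx1 zz1
  have k22 := key x2 z2 zx2 zz2
  have k12 := key x1 z2 zx1 zz2
  have k21 := key x2 z1 zx2 zz1
  have z11 : ∑ j, x1 j * (c j - ∑ i, ((-A.transpose) j i : ℝ) * z1 i) = 0 := by
    apply sum_eq_zero
    intro j _
    by_cases h : j ∈ S₁
    · rw [r1' j h, sub_self, mul_zero]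
    · rw [q1 j h, zero_mul]
  have z11' : ∑ i, z1 i * (b i - ∑ j, (A i j : ℝ) * x1 j) = 0 := by
    apply sum_eq_zero
    intro i _
    by_cases h : i ∈ R₁
    · rw [r1 i h, sub_self, mul_zero]
    · rw [q1' i h, zero_mul]
  have z22 : ∑ j, x2 j * (c j - ∑ i, ((-A.transpose) j i : ℝ) * z2 i) = 0 := by
    apply sum_eq_zero
    intro j _
    by_cases h : j ∈ S₂
    · rw [r2' j h, sub_self, mul_zero]
    · rw [q2 j h, zero_mul]
  have z22' : ∑ i, z2 i * (b i - ∑ j, (A i j : ℝ) * x2 j) = 0 := by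
    apply sum_eq_zero
    intro i _
    by_cases h : i ∈ R₂
    · rw [r2 i h, sub_self, mul_zero]
    · rw [q2' i h, zero_mul]
  have t12 : ∀ j, 0 ≤ x1 j * (c j - ∑ i, ((-A.transpose) j i : ℝ) * z2 i) := fun j => by
    by_cases h : j ∈ W
    · exact mul_nonneg (nx1 j) (sz2 j h)
    · rw [zx1 j h, zero_mul]
  have t12' : ∀ i, 0 ≤ z2 i * (b i - ∑ j, (A i j : ℝ) * x1 j) := fun i => by
    by_cases h : i ∈ U
    · exact mul_nonneg (nz2 i) (sx1 i h)
    · rw [zz2 i h, zero_mul]
  have t21 : ∀ j, 0 ≤ x2 j * (c j - ∑ i, ((-A.transpose) j i : ℝ) * z1 i) := fun j => by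
    by_cases h : j ∈ W
    · exact mul_nonneg (nx2 j) (sz1 j h)
    · rw [zx2 j h, zero_mul]
  have t21' : ∀ i, 0 ≤ z1 i * (b i - ∑ j, (A i j : ℝ) * x2 j) := fun i => by
    by_cases h : i ∈ U
    · exact mul_nonneg (nz1 i) (sx2 i h)
    · rw [zz1 i h, zero_mul]
  have S12 := sum_nonneg fun j (_ : j ∈ (univ : Finset J)) => t12 j
  have S12' := sum_nonneg fun i (_ : i ∈ (univ : Finset I)) => t12' i
  have S21 := sum_nonneg fun j (_ : j ∈ (univ : Finset J)) => t21 j
  have S21' := sum_nonneg fun i (_ : i ∈ (univ : Finset I)) => t21' i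
  have f1 : ∑ j, x1 j * (c j - ∑ i, ((-A.transpose) j i : ℝ) * z2 i) = 0 := by linarith
  have f2 : ∑ i, z2 i * (b i - ∑ j, (A i j : ℝ) * x1 j) = 0 := by linarith
  constructor
  · intro j hj
    by_contra h
    have h3 := (sum_eq_zero_iff_of_nonneg fun j _ => t12 j).1 f1 j (mem_univ j)
    have h4 := s2' j (hSW1 hj) h
    have h5 := p1 j hj
    have : 0 < x1 j * (c j - ∑ i, ((-A.transpose) j i : ℝ) * z2 i) :=
      mul_pos h5 (by linarith)
    linarith
  · intro i hi
    by_contra h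
    have h3 := (sum_eq_zero_iff_of_nonneg fun i _ => t12' i).1 f2 i (mem_univ i)
    have h4 := s1 i (hRU2 hi) h
    have h5 := p2' i hi
    have : 0 < z2 i * (b i - ∑ j, (A i j : ℝ) * x1 j) := mul_pos h5 (by linarith)
    linarith

theorem pat_unique {A : Matrix I J ℚ} {U : Finset I} {W : Finset J} {b : I → ℝ} {c : J → ℝ}
    {R₁ R₂ : Finset I} {S₁ S₂ : Finset J} (h1 : POK A U W b R₁ S₁)
    (h1' : POK (-A.transpose) W U c S₁ R₁) (h2 : POK A U W b R₂ S₂)
    (h2' : POK (-A.transpose) W U c S₂ R₂) : (R₁, S₁) = (R₂, S₂) := by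
  have a := pat_subset h1 h1' h2 h2'
  have b := pat_subset h2 h2' h1 h1'
  rw [Finset.Subset.antisymm a.1 b.1, Finset.Subset.antisymm b.2 a.2]

/-- the patterns which are primal feasible for some parameter and dual feasible for some
parameter -/
def Pats {a D : ℕ} (A : Matrix I J ℚ) (U : Finset I) (W : Finset J) (b0 : I → ℝ)
    (B : I → Fin a → ℚ) (c0 : J → ℝ) (C : J → Fin D → ℚ) : Set (Finset I × Finset J) :=
  {P | (∃ β, POK A U W (aff b0 B β) P.1 P.2) ∧ ∃ μ, POK (-A.transpose) W U (aff c0 C μ) P.2 P.1}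

theorem pats_finite {a D : ℕ} (A : Matrix I J ℚ) (U : Finset I) (W : Finset J) (b0 : I → ℝ)
    (B : I → Fin a → ℚ) (c0 : J → ℝ) (C : J → Fin D → ℚ) : (Pats A U W b0 B c0 C).Finite :=
  Set.toFinite _

theorem pats_swap {a D : ℕ} (A : Matrix I J ℚ) (U : Finset I) (W : Finset J) (b0 : I → ℝ)
    (B : I → Fin a → ℚ) (c0 : J → ℝ) (C : J → Fin D → ℚ) :
    Pats (-A.transpose) W U c0 C b0 B = Prod.swap '' Pats A U W b0 B c0 C := by
  have hA : -(-A.transpose).transpose = A := by simp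
  ext ⟨S, R⟩
  constructor
  · rintro ⟨h1, h2⟩
    rw [hA] at h2
    exact ⟨(R, S), ⟨h2, h1⟩, rfl⟩
  · rintro ⟨⟨R', S'⟩, ⟨h1, h2⟩, h⟩
    simp only [Prod.swap_prod_mk, Prod.mk.injEq] at h
    obtain ⟨rfl, rfl⟩ := h
    refine ⟨h2, ?_⟩
    rw [hA]
    exact h1

/-- patterns of generic programs have an invertible submatrix -/
theorem pats_inv {a D : ℕ} {A : Matrix I J ℚ} {U : Finset I} {W : Finset J} {b0 : I → ℝ}
    {B : I → Fin a → ℚ} {c0 : J → ℝ} {C : J → Fin D → ℚ} (hb : Gen b0) (hc : Gen c0)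
    {P : Finset I × Finset J} (hP : P ∈ Pats A U W b0 B c0 C) : ∃ Q, IsInv A P.1 P.2 Q := by
  obtain ⟨⟨β, -, -, x, p, q, r, s⟩, μ, -, -, z, p', q', r', s'⟩ := hP
  apply exists_inv
  · intro t ht htS
    exact rows_indep hb B β q r t ht htS
  · intro t ht htR
    refine rows_indep hc C μ q' r' t ht fun i hi => ?_
    rw [← neg_eq_zero, ← htR i hi, ← sum_neg_distrib]
    refine sum_congr rfl fun j _ => ?_
    rw [Matrix.neg_apply, Matrix.transpose_apply]
    ring

end Pool.Agent.Q231.TD
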