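import Mathlib

/-!
The path of the shadow vertex method for a direction in general position.
-/

set_option autoImplicit false

open Finset

namespace Pool.Agent.Q231.TD.Path

variable {K J : Type} [Fintype K] [Fintype J]

/-- the value of a point -/
def val (w x : J → ℝ) : ℝ := ∑ j, w j * x j

theorem val_add (w x y : J → ℝ) : val w (x + y) = val w x + val w y := by
  unfold val
  rw [← sum_add_distrib]
  exact sum_congr rfl fun j _ => by rw [Pi.add_apply]; ring

theorem val_smul (w x : J → ℝ) (t : ℝ) : val w (t • x) = t * val w x := by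
  unfold val
  rw [mul_sum]
  exact sum_congr rfl fun j _ => by rw [Pi.smul_apply, smul_eq_mul]; ring

theorem val_comm (w x : J → ℝ) : val w x = val x w := by
  unfold val
  exact sum_congr rfl fun j _ => mul_comm _ _

theorem add_val (w w' x : J → ℝ) : val (w + w') x = val w x + val w' x := by
  rw [val_comm, val_add, val_comm, val_comm x]

theorem smul_val (w x : J → ℝ) (t : ℝ) : val (t • w) x = t * val w x := by
  rw [val_comm, val_smul, val_comm]

theorem val_neg (w x : J → ℝ) : val w (-x) = - val w x := by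
  have := val_smul w x (-1)
  rw [neg_one_smul] at this
  rw [this]; ring

theorem val_sub (w x y : J → ℝ) : val w (x - y) = val w x - val w y := by
  rw [sub_eq_add_neg, val_add, val_neg]; ring

theorem val_zero (w : J → ℝ) : val w 0 = 0 := by
  unfold val; simp

theorem val_sum {α : Type} (s : Finset α) (w : J → ℝ) (f : α → J → ℝ) :
    val w (∑ a ∈ s, f a) = ∑ a ∈ s, val w (f a) := by
  classical
  induction s using Finset.induction_on with
  | empty => simp [val_zero]
  | insert a s ha ih => rw [sum_insert ha, sum_insert ha, val_add, ih]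

theorem val_cont : Continuous fun q : (J → ℝ) × (J → ℝ) => val q.1 q.2 := by
  unfold val
  fun_prop

theorem val_cont' (w : J → ℝ) : Continuous fun x => val w x := by
  unfold val
  fun_prop

/-- a polyhedron -/
def Poly (a : K → J → ℝ) (β : K → ℝ) : Set (J → ℝ) := {x | ∀ k, val (a k) x ≤ β k}

/-- the cone of feasible directions -/
def Cone (a : K → J → ℝ) (β : K → ℝ) (v : J → ℝ) : Set (J → ℝ) :=
  {u | ∀ k, val (a k) v = β k → val (a k) u ≤ 0}

variable {a : K → J → ℝ} {β : K → ℝ}

omit [Fintype K] in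
theorem poly_closed : IsClosed (Poly a β) := by
  have h : Poly a β = ⋂ k, {x | val (a k) x ≤ β k} := by
    ext x; simp [Poly]
  rw [h]
  exact isClosed_iInter fun k => isClosed_le (val_cont' _) continuous_const

omit [Fintype K] in
theorem cone_closed (v : J → ℝ) : IsClosed (Cone a β v) := by
  have h : Cone a β v = ⋂ k, ⋂ _ : val (a k) v = β k, {u | val (a k) u ≤ 0} := by
    ext x; simp [Cone]
  rw [h]
  exact isClosed_iInter fun k => isClosed_iInter fun _ =>
    isClosed_le (val_cont' _) continuous_const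

omit [Fintype K] in
theorem mem_cone {v y : J → ℝ} (hy : y ∈ Poly a β) : y - v ∈ Cone a β v := by
  intro k hk
  rw [val_sub, hk]
  linarith [hy k]

omit [Fintype K] in
theorem cone_smul {v u : J → ℝ} (hu : u ∈ Cone a β v) {t : ℝ} (ht : 0 ≤ t) :
    t • u ∈ Cone a β v := by
  intro k hk
  rw [val_smul]
  exact mul_nonpos_of_nonneg_of_nonpos ht (hu k hk)

theorem small {K : Type} [Finite K] (p q : K → ℝ) :
    ∃ ε0 : ℝ, 0 < ε0 ∧ ∀ ε, 0 < ε → ε < ε0 → ∀ k, 0 < p k → 0 < p k + ε * q k := by
  have h : ∀ᶠ ε in nhds (0 : ℝ), ∀ k, 0 < p k → 0 < p k + ε * q k := by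
    rw [Filter.eventually_all]
    intro k
    by_cases hk : 0 < p k
    · have hc : ContinuousAt (fun ε : ℝ => p k + ε * q k) 0 := by fun_prop
      have h1 : (0 : ℝ) < p k + 0 * q k := by simpa using hk
      filter_upwards [hc.eventually (lt_mem_nhds h1)] with ε hε _
      exact hε
    · exact Filter.Eventually.of_forall fun ε h => absurd h hk
  rw [Metric.eventually_nhds_iff] at h
  obtain ⟨ε0, h0, h1⟩ := h
  refine ⟨ε0, h0, fun ε h2 h3 => h1 ?_⟩
  rw [Real.dist_eq, sub_zero, abs_of_pos h2]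
  exact h3

/-- a small step -/
theorem step {v u : J → ℝ} (hv : v ∈ Poly a β) (hu : u ∈ Cone a β v) :
    ∃ ε : ℝ, 0 < ε ∧ v + ε • u ∈ Poly a β := by
  obtain ⟨ε0, h0, h⟩ := small (fun k => β k - val (a k) v) fun k => - val (a k) u
  refine ⟨ε0 / 2, by positivity, fun k => ?_⟩
  rw [val_add, val_smul]
  by_cases hk : val (a k) v = β k
  · have := mul_nonpos_of_nonneg_of_nonpos (show 0 ≤ ε0 / 2 by positivity) (hu k hk)
    linarith
  · have := h (ε0 / 2) (by positivity) (by linarith) k
      (by linarith [lt_of_le_of_ne (hv k) hk])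
    linarith

theorem max_iff {v w : J → ℝ} (hv : v ∈ Poly a β) :
    (∀ y ∈ Poly a β, val w y ≤ val w v) ↔ ∀ u ∈ Cone a β v, val w u ≤ 0 := by
  constructor
  · intro h u hu
    obtain ⟨ε, hε, hP⟩ := step hv hu
    have := h _ hP
    rw [val_add, val_smul] at this
    by_contra h1
    have := mul_pos hε (not_le.1 h1)
    linarith
  · intro h y hy
    have := h _ (mem_cone hy)
    rw [val_sub] at this
    linarith

theorem umax_iff {v w : J → ℝ} (hv : v ∈ Poly a β) :
    (∀ y ∈ Poly a β, y ≠ v → val w y < val w v) ↔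
      ∀ u ∈ Cone a β v, u ≠ 0 → val w u < 0 := by
  constructor
  · intro h u hu hu0
    obtain ⟨ε, hε, hP⟩ := step hv hu
    have := h _ hP (by
      intro h1
      rw [add_eq_left, smul_eq_zero] at h1
      rcases h1 with h1 | h1
      · exact hε.ne' h1
      · exact hu0 h1)
    rw [val_add, val_smul] at this
    by_contra h1
    have := mul_nonneg hε.le (not_lt.1 h1)
    linarith
  · intro h y hy hne
    have := h _ (mem_cone hy) (sub_ne_zero.2 hne)
    rw [val_sub] at this
    linarith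

/-! ### compactness -/

omit [Fintype K] in
theorem unit_of_cone {v g : J → ℝ}
    (h : ∀ u ∈ Cone a β v, ‖u‖ = 1 → val g u < 0) : ∀ u ∈ Cone a β v, u ≠ 0 → val g u < 0 := by
  intro u hu hu0
  have hn : 0 < ‖u‖ := norm_pos_iff.2 hu0
  have h1 := h (‖u‖⁻¹ • u) (cone_smul hu (inv_nonneg.2 hn.le)) (by
    rw [norm_smul, norm_inv, norm_norm, inv_mul_cancel₀ hn.ne'])
  rw [val_smul] at h1
  by_contra h2
  have := mul_nonneg (inv_nonneg.2 hn.le) (not_lt.1 h2)
  linarith

omit [Fintype K] in
theorem compact_unit (v : J → ℝ) : IsCompact (Cone a β v ∩ Metric.sphere 0 1) :=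
  (isCompact_sphere 0 1).inter_left (cone_closed v)

omit [Fintype K] in
theorem open_umax {v d : J → ℝ} (h : ∀ u ∈ Cone a β v, u ≠ 0 → val d u < 0) :
    ∀ᶠ d' in nhds d, ∀ u ∈ Cone a β v, u ≠ 0 → val d' u < 0 := by
  have ev : ∀ᶠ d' in nhds d, ∀ u ∈ Cone a β v ∩ Metric.sphere 0 1, val d' u < 0 := by
    refine IsCompact.eventually_forall_of_forall_eventually (compact_unit v) ?_
    rintro u ⟨hu, hu1⟩
    have hu0 : u ≠ 0 := by
      rintro rfl
      rw [mem_sphere_iff_norm, sub_self, norm_zero] at hu1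
      exact zero_ne_one hu1
    exact (val_cont.tendsto (d, u)).eventually (gt_mem_nhds (h u hu hu0))
  filter_upwards [ev] with d' hd'
  apply unit_of_cone
  intro u hu hu1
  exact hd' u ⟨hu, by rw [mem_sphere_iff_norm, sub_zero, hu1]⟩

omit [Fintype K] in
/-- the switch lemma -/
theorem switch {v g h : J → ℝ}
    (hg : ∀ u ∈ Cone a β v, u ≠ 0 → val g u ≤ 0 ∧ (val g u = 0 → val h u < 0)) :
    ∃ ε0 : ℝ, 0 < ε0 ∧ ∀ ε, 0 < ε → ε < ε0 →
      ∀ u ∈ Cone a β v, u ≠ 0 → val (g + ε • h) u < 0 := by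
  have ev : ∀ᶠ ε in nhds (0 : ℝ), ∀ u ∈ Cone a β v ∩ Metric.sphere 0 1,
      0 < ε → u ∈ Cone a β v → u ≠ 0 → val (g + ε • h) u < 0 := by
    refine IsCompact.eventually_forall_of_forall_eventually (compact_unit v) ?_
    rintro u ⟨hu, hu1⟩
    have hu0 : u ≠ 0 := by
      rintro rfl
      rw [mem_sphere_iff_norm, sub_self, norm_zero] at hu1
      exact zero_ne_one hu1
    obtain ⟨h1, h2⟩ := hg u hu hu0
    rcases h1.lt_or_eq with h3 | h3
    · have hc : Continuous fun z : ℝ × (J → ℝ) => val (g + z.1 • h) z.2 :=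
        val_cont.comp ((continuous_const.add (continuous_fst.smul continuous_const)).prodMk
          continuous_snd)
      have h4 : val (g + (0 : ℝ) • h) u < 0 := by rwa [zero_smul, add_zero]
      filter_upwards [(hc.tendsto (0, u)).eventually (gt_mem_nhds h4)] with z hz _ _ _
      exact hz
    · have hc : Continuous fun z : ℝ × (J → ℝ) => val h z.2 :=
        (val_cont' h).comp continuous_snd
      filter_upwards [(hc.tendsto (0, u)).eventually (gt_mem_nhds (h2 h3))] with z hz h4 h5 h6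
      rw [add_val, smul_val]
      have := mul_neg_of_pos_of_neg h4 hz
      linarith [(hg z.2 h5 h6).1]
  rw [Metric.eventually_nhds_iff] at ev
  obtain ⟨ε0, h0, h1⟩ := ev
  refine ⟨ε0, h0, fun ε h2 h3 => unit_of_cone ?_⟩
  intro u hu hu1
  have h4 : dist ε 0 < ε0 := by
    rw [Real.dist_eq, sub_zero, abs_of_pos h2]
    exact h3
  refine h1 h4 u ⟨hu, by rw [mem_sphere_iff_norm, sub_zero, hu1]⟩ h2 hu ?_
  rintro rfl
  rw [norm_zero] at hu1
  exact zero_ne_one hu1

/-! ### the optimal faces are small -/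

theorem span_lemma {v w : J → ℝ} (hw : ∀ u ∈ Cone a β v, val w u ≤ 0) :
    ∃ L : Set K, (∀ u ∈ Cone a β v, val w u = 0 → ∀ k ∈ L, val (a k) u = 0) ∧
      ∀ u, (∀ k ∈ L, val (a k) u = 0) → val w u = 0 := by
  classical
  let L : Set K := {k | val (a k) v = β k ∧ ∀ u ∈ Cone a β v, val w u = 0 → val (a k) u = 0}
  refine ⟨L, fun u hu h0 k hk => hk.2 u hu h0, ?_⟩
  have hex : ∀ k : K, ∃ u ∈ Cone a β v, val w u = 0 ∧
      (val (a k) v = β k → k ∉ L → val (a k) u < 0) := by
    intro k
    by_cases hk : val (a k) v = β k ∧ k ∉ L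
    · obtain ⟨h1, h2⟩ := hk
      have h3 : ¬ ∀ u ∈ Cone a β v, val w u = 0 → val (a k) u = 0 := fun h => h2 ⟨h1, h⟩
      push Not at h3
      obtain ⟨u, hu, hu0, hne⟩ := h3
      exact ⟨u, hu, hu0, fun _ _ => lt_of_le_of_ne (hu k h1) hne⟩
    · refine ⟨0, fun k _ => by rw [val_zero], val_zero w, fun h1 h2 => absurd ⟨h1, h2⟩ hk⟩
  choose f hf hf0 hfk using hex
  set u' : J → ℝ := ∑ k, f k with hu'
  have h1 : ∀ k, val (a k) v = β k → val (a k) u' ≤ 0 := by
    intro k hk
    rw [hu', val_sum]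
    exact sum_nonpos fun l _ => hf l k hk
  have h2 : ∀ k, val (a k) v = β k → k ∉ L → val (a k) u' < 0 := by
    intro k hk hkL
    rw [hu', val_sum]
    exact sum_neg' (fun l _ => hf l k hk) ⟨k, mem_univ k, hfk k hk hkL⟩
  have h3 : val w u' = 0 := by
    rw [hu', val_sum]
    exact sum_eq_zero fun l _ => hf0 l
  have h4 : ∀ k ∈ L, val (a k) u' = 0 := fun k hk => hk.2 u' h1 h3
  have key : ∀ u, (∀ k ∈ L, val (a k) u = 0) → val w u ≤ 0 := by
    intro u hu
    obtain ⟨ε0, h0, h⟩ := small (fun k => -val (a k) u') fun k => - val (a k) u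
    have h5 : u' + (ε0 / 2) • u ∈ Cone a β v := by
      intro k hk
      rw [val_add, val_smul]
      by_cases hkL : k ∈ L
      · rw [h4 k hkL, hu k hkL]; simp
      · have := h (ε0 / 2) (by positivity) (by linarith) k (by linarith [h2 k hk hkL])
        linarith
    have h6 := hw _ h5
    rw [val_add, val_smul, h3, zero_add] at h6
    by_contra h7
    have := mul_pos (show 0 < ε0 / 2 by positivity) (not_le.1 h7)
    linarith
  intro u hu
  have h5 := key u hu
  have h6 := key (-u) fun k hk => by rw [val_neg, hu k hk, neg_zero]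
  rw [val_neg] at h6
  linarith

/-- the maximal points -/
def Arg (a : K → J → ℝ) (β : K → ℝ) (w : J → ℝ) : Set (J → ℝ) :=
  {y ∈ Poly a β | ∀ z ∈ Poly a β, val w z ≤ val w y}

/-- the ray -/
def Ray (v u : J → ℝ) : Set (J → ℝ) := {y | ∃ t : ℝ, 0 ≤ t ∧ y = v + t • u}

/-- the optimal faces of the parametric program are at most one-dimensional -/
def GenPos (a : K → J → ℝ) (β : K → ℝ) (c d : J → ℝ) : Prop :=
  ∀ μ : ℝ, 0 < μ → Collinear ℝ (Arg a β (c + μ • d))

theorem collinear {c d v : J → ℝ} (hgen : GenPos a β c d) {μ : ℝ} (hμ : 0 < μ)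
    (hv : v ∈ Poly a β) (hw : ∀ u ∈ Cone a β v, val (c + μ • d) u ≤ 0) {u u' : J → ℝ}
    (hu : u ∈ Cone a β v) (hu' : u' ∈ Cone a β v) (h0 : val (c + μ • d) u = 0)
    (h0' : val (c + μ • d) u' = 0) : (val c u') • u = (val c u) • u' := by
  have hmax : v ∈ Arg a β (c + μ • d) := ⟨hv, (max_iff hv).2 hw⟩
  obtain ⟨e, he⟩ := (collinear_iff_of_mem hmax).1 (hgen μ hμ)
  have key : ∀ x ∈ Cone a β v, val (c + μ • d) x = 0 → ∃ s : ℝ, x = s • e := by
    intro x hx hx0
    obtain ⟨ε, hε, hP⟩ := step hv hx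
    obtain ⟨r, hr⟩ := he (v + ε • x) ⟨hP, fun z hz => by
      rw [val_add, val_smul, hx0, mul_zero, add_zero]
      exact hmax.2 z hz⟩
    rw [vadd_eq_add, add_comm, add_left_inj] at hr
    refine ⟨ε⁻¹ * r, ?_⟩
    rw [mul_smul, ← hr, ← mul_smul, inv_mul_cancel₀ hε.ne', one_smul]
  obtain ⟨s, rfl⟩ := key u hu h0
  obtain ⟨s', rfl⟩ := key u' hu' h0'
  rw [val_smul, val_smul, ← mul_smul, ← mul_smul]
  congr 1
  ring

omit [Fintype K] in
theorem poly_seg {x y : J → ℝ} (hx : x ∈ Poly a β) (hy : y ∈ Poly a β) {s t : ℝ} (hs : 0 ≤ s)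
    (ht : 0 ≤ t) (hst : s + t = 1) : s • x + t • y ∈ Poly a β := by
  intro k
  rw [val_add, val_smul, val_smul]
  have h1 := mul_le_mul_of_nonneg_left (hx k) hs
  have h2 := mul_le_mul_of_nonneg_left (hy k) ht
  calc s * val (a k) x + t * val (a k) y ≤ s * β k + t * β k := add_le_add h1 h2
    _ = β k := by rw [← add_mul, hst, one_mul]

/-- one step of the shadow vertex method -/
theorem one_step {c d v : J → ℝ} (hgen : GenPos a β c d) {μ : ℝ} (hμ : 0 < μ)
    (hv : v ∈ Poly a β) (hu : ∀ u ∈ Cone a β v, u ≠ 0 → val (c + μ • d) u < 0) :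
    (∀ y ∈ Poly a β, val c y ≤ val c v) ∨
    (∃ u, 0 < val c u ∧ ∃ w, Arg a β w = Ray v u) ∨
    ∃ v' ∈ Poly a β, ∃ ν, 0 < ν ∧ ν < μ ∧ (∀ u ∈ Cone a β v', u ≠ 0 → val (c + ν • d) u < 0) ∧
      val c v < val c v' ∧ ∃ w, Arg a β w = segment ℝ v v' := by
  set Λ : Set ℝ := {ν | 0 ≤ ν ∧ ∀ u ∈ Cone a β v, val (c + ν • d) u ≤ 0} with hΛ
  have hΛc : IsClosed Λ := by
    have h : Λ = {ν | 0 ≤ ν} ∩ ⋂ u, ⋂ _ : u ∈ Cone a β v, {ν | val (c + ν • d) u ≤ 0} := by
      ext ν; simp [hΛ]
    rw [h]
    refine (isClosed_le continuous_const continuous_id).inter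
      (isClosed_iInter fun u => isClosed_iInter fun _ => isClosed_le ?_ continuous_const)
    exact val_cont.comp ((continuous_const.add (continuous_id.smul continuous_const)).prodMk
      continuous_const)
  have hle : ∀ u ∈ Cone a β v, val (c + μ • d) u ≤ 0 := by
    intro u hu'
    by_cases h : u = 0
    · rw [h, val_zero]
    · exact (hu u hu' h).le
  have hμΛ : μ ∈ Λ := ⟨hμ.le, hle⟩
  have hbdd : BddBelow Λ := ⟨0, fun ν hν => hν.1⟩
  set ν := sInf Λ with hν
  have hνΛ : ν ∈ Λ := hΛc.csInf_mem ⟨μ, hμΛ⟩ hbdd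
  have hνμ : ν ≤ μ := csInf_le hbdd hμΛ
  rcases hνΛ.1.eq_or_lt with h0 | h0
  · -- optimal
    left
    rw [max_iff hv]
    intro u hu'
    have := hνΛ.2 u hu'
    rwa [← h0, zero_smul, add_zero] at this
  right
  -- the direction
  obtain ⟨u, huC, hu0, hwu⟩ : ∃ u ∈ Cone a β v, u ≠ 0 ∧ val (c + ν • d) u = 0 := by
    by_contra hno
    push Not at hno
    obtain ⟨ε0, hε0, hsw⟩ := switch (v := v) (a := a) (β := β) (g := c + ν • d) (h := -d)
      fun u h1 h2 => ⟨hνΛ.2 u h1, fun h3 => absurd h3 (hno u h1 h2)⟩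
    have hε : 0 < min (ε0 / 2) ν := lt_min (by positivity) h0
    have h1 : ν - min (ε0 / 2) ν ∈ Λ := by
      refine ⟨by linarith [min_le_right (ε0 / 2) ν], fun u h1 => ?_⟩
      by_cases h2 : u = 0
      · rw [h2, val_zero]
      · have h3 := hsw _ hε (by linarith [min_le_left (ε0 / 2) ν]) u h1 h2
        have e : c + (ν - min (ε0 / 2) ν) • d = c + ν • d + (min (ε0 / 2) ν) • (-d) := by
          rw [sub_smul, smul_neg]; abel
        rw [e]
        exact h3.le
    have h2 := csInf_le hbdd h1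
    linarith
  have hνμ' : ν < μ := by
    rcases hνμ.lt_or_eq with h | h
    · exact h
    · exfalso
      have := hu u huC hu0
      rw [← h] at this
      linarith
  -- signs
  have sgn : ∀ x ∈ Cone a β v, x ≠ 0 → val (c + ν • d) x = 0 → val d x < 0 ∧ 0 < val c x := by
    intro x hx hx0 hwx
    have h1 := hu x hx hx0
    rw [add_val, smul_val] at h1 hwx
    have h2 : (μ - ν) * val d x < 0 := by nlinarith
    have h3 : val d x < 0 := by
      by_contra h
      have := mul_nonneg (sub_nonneg.2 hνμ) (not_lt.1 h)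
      linarith
    refine ⟨h3, ?_⟩
    have := mul_neg_of_pos_of_neg h0 h3
    linarith
  obtain ⟨hdu, hcu⟩ := sgn u huC hu0 hwu
  set w := c + ν • d with hw
  have hvmax : ∀ z ∈ Poly a β, val w z ≤ val w v := (max_iff hv).2 hνΛ.2
  -- points of the optimal face lie on the ray
  have hray : ∀ y ∈ Arg a β w, ∃ t : ℝ, 0 ≤ t ∧ y = v + t • u := by
    intro y hy
    by_cases hyv : y = v
    · exact ⟨0, le_rfl, by simp [hyv]⟩
    · have h1 : y - v ∈ Cone a β v := mem_cone hy.1
      have h2 : val w (y - v) = 0 := by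
        rw [val_sub]
        have := hvmax y hy.1
        have := hy.2 v hv
        linarith
      have h3 := sgn (y - v) h1 (sub_ne_zero.2 hyv) h2
      have h4 := collinear hgen h0 hv hνΛ.2 huC h1 hwu h2
      refine ⟨val c (y - v) / val c u, (div_pos h3.2 hcu).le, ?_⟩
      have h5 : y - v = (val c (y - v) / val c u) • u := by
        rw [div_eq_inv_mul, mul_smul, h4, ← mul_smul, inv_mul_cancel₀ hcu.ne', one_smul]
      rw [← h5]
      abel
  have hval : ∀ t : ℝ, val w (v + t • u) = val w v := by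
    intro t
    rw [val_add, val_smul, hwu, mul_zero, add_zero]
  by_cases hall : ∀ t : ℝ, 0 ≤ t → v + t • u ∈ Poly a β
  · left
    refine ⟨u, hcu, w, ?_⟩
    ext y
    constructor
    · exact hray y
    · rintro ⟨t, ht, rfl⟩
      refine ⟨hall t ht, fun z hz => ?_⟩
      rw [hval]
      exact hvmax z hz
  · right
    push Not at hall
    obtain ⟨t1, ht1, hout⟩ := hall
    have hseg : ∀ s t : ℝ, 0 ≤ s → s ≤ t → v + t • u ∈ Poly a β → v + s • u ∈ Poly a β := by
      intro s t hs hst hP k
      have h1 := hP k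
      have h2 := hv k
      rw [val_add, val_smul] at h1 ⊢
      by_cases h3 : 0 ≤ val (a k) u
      · have := mul_le_mul_of_nonneg_right hst h3
        linarith
      · have := mul_nonpos_of_nonneg_of_nonpos hs (not_le.1 h3).le
        linarith
    set Θ : Set ℝ := {t | 0 ≤ t ∧ v + t • u ∈ Poly a β} with hΘ
    have hΘc : IsClosed Θ := by
      have h : Θ = {t | 0 ≤ t} ∩ (fun t : ℝ => v + t • u) ⁻¹' Poly a β := rfl
      rw [h]
      refine (isClosed_le continuous_const continuous_id).inter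
        (poly_closed.preimage ?_)
      fun_prop
    have hΘ0 : (0 : ℝ) ∈ Θ := ⟨le_rfl, by simpa using hv⟩
    have hΘb : BddAbove Θ := by
      refine ⟨t1, fun t ht => ?_⟩
      by_contra h
      exact hout (hseg t1 t ht1 (not_le.1 h).le ht.2)
    set T := sSup Θ with hT
    have hTΘ : T ∈ Θ := hΘc.csSup_mem ⟨0, hΘ0⟩ hΘb
    have hT0 : 0 < T := by
      obtain ⟨ε, hε, hP⟩ := step hv huC
      have := le_csSup hΘb (show ε ∈ Θ from ⟨hε.le, hP⟩)
      linarith
    set v' := v + T • u with hv'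
    have hv'P : v' ∈ Poly a β := hTΘ.2
    have huC' : u ∉ Cone a β v' := by
      intro h
      obtain ⟨ε, hε, hP⟩ := step hv'P h
      have h1 : T + ε ∈ Θ := by
        refine ⟨by linarith, ?_⟩
        rw [add_smul, ← add_assoc]
        exact hP
      have := le_csSup hΘb h1
      linarith
    have hv'max : ∀ z ∈ Poly a β, val w z ≤ val w v' := by
      intro z hz
      rw [hv', hval]
      exact hvmax z hz
    have hw' := (max_iff hv'P).1 hv'max
    have hnegu : -u ∈ Cone a β v' := by
      have h1 : v - v' ∈ Cone a β v' := mem_cone hv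
      have h2 : -u = T⁻¹ • (v - v') := by
        rw [hv', sub_add_cancel_left, smul_neg, ← mul_smul, inv_mul_cancel₀ hT0.ne', one_smul]
      rw [h2]
      exact cone_smul h1 (inv_nonneg.2 hT0.le)
    -- the switch
    obtain ⟨ε0, hε0, hsw⟩ := switch (v := v') (a := a) (β := β) (g := w) (h := -d) (by
      intro x hx hx0
      refine ⟨hw' x hx, fun hwx => ?_⟩
      have h1 := collinear hgen h0 hv'P hw' hnegu hx (by rw [← hw, val_neg, hwu, neg_zero]) hwx
      rw [val_neg, smul_neg, neg_smul, neg_inj] at h1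
      -- `x` is a multiple of `u`
      have h2 : x = (val c x / val c u) • u := by
        rw [div_eq_inv_mul, mul_smul, h1, ← mul_smul, inv_mul_cancel₀ hcu.ne', one_smul]
      have h3 : val c x / val c u ≤ 0 := by
        by_contra h3
        push Not at h3
        apply huC'
        have h4 := cone_smul hx (inv_nonneg.2 h3.le)
        have h5 : (val c x / val c u)⁻¹ • x = u :=
          calc (val c x / val c u)⁻¹ • x =
              (val c x / val c u)⁻¹ • ((val c x / val c u) • u) :=
                congrArg (fun y => (val c x / val c u)⁻¹ • y) h2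
            _ = u := by rw [← mul_smul, inv_mul_cancel₀ h3.ne', one_smul]
        rwa [h5] at h4
      have h4 : val c x / val c u ≠ 0 := by
        intro h4
        rw [h4, zero_smul] at h2
        exact hx0 h2
      have h5 : val c x / val c u < 0 := lt_of_le_of_ne h3 h4
      have h6 : val d x = (val c x / val c u) * val d u :=
        calc val d x = val d ((val c x / val c u) • u) := congrArg (val d) h2
          _ = _ := val_smul _ _ _
      rw [val_comm, val_neg, val_comm, h6]
      have := mul_pos_of_neg_of_neg h5 hdu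
      linarith)
    refine ⟨v', hv'P, ν - min (ε0 / 2) (ν / 2), ?_, ?_, ?_, ?_, w, ?_⟩
    · linarith [min_le_right (ε0 / 2) (ν / 2)]
    · have : 0 < min (ε0 / 2) (ν / 2) := lt_min (by positivity) (by positivity)
      linarith
    · intro x hx hx0
      have h1 := hsw (min (ε0 / 2) (ν / 2)) (lt_min (by positivity) (by positivity))
        (by linarith [min_le_left (ε0 / 2) (ν / 2)]) x hx hx0
      have e : c + (ν - min (ε0 / 2) (ν / 2)) • d = w + (min (ε0 / 2) (ν / 2)) • (-d) := by
        rw [hw, sub_smul, smul_neg]; abel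
      rw [e]
      exact h1
    · rw [hv', val_add, val_smul]
      have := mul_pos hT0 hcu
      linarith
    · ext y
      constructor
      · intro hy
        obtain ⟨t, ht, rfl⟩ := hray y hy
        have htT : t ≤ T := le_csSup hΘb ⟨ht, hy.1⟩
        rw [segment_eq_image']
        refine ⟨t / T, ⟨div_nonneg ht hT0.le, (div_le_one hT0).2 htT⟩, ?_⟩
        simp only
        rw [hv', add_sub_cancel_left, ← mul_smul, div_mul_cancel₀ _ hT0.ne']
      · intro hy
        rw [segment_eq_image'] at hy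
        obtain ⟨s, ⟨hs0, hs1⟩, rfl⟩ := hy
        have e : v + s • (v' - v) = v + (s * T) • u := by
          rw [hv', add_sub_cancel_left, ← mul_smul]
        simp only
        rw [e]
        refine ⟨hseg _ T (mul_nonneg hs0 hT0.le) ?_ hv'P, fun z hz => ?_⟩
        · have := mul_le_mul_of_nonneg_right hs1 hT0.le
          linarith
        · rw [hval]
          exact hvmax z hz

/-- the whole path -/
theorem path_exists {c d : J → ℝ} (hgen : GenPos a β c d) {V : Set (J → ℝ)} (hV : V.Finite)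
    (hmem : ∀ v ∈ Poly a β, ∀ μ : ℝ, 0 < μ →
      (∀ u ∈ Cone a β v, u ≠ 0 → val (c + μ • d) u < 0) → v ∈ V) :
    ∀ (n : ℕ) (v : J → ℝ) (μ : ℝ), v ∈ Poly a β → 0 < μ →
      (∀ u ∈ Cone a β v, u ≠ 0 → val (c + μ • d) u < 0) →
      {v' ∈ V | val c v < val c v'}.ncard ≤ n →
      ∃ (N : ℕ) (p : ℕ → J → ℝ) (ν : ℕ → ℝ), N ≤ {v' ∈ V | val c v < val c v'}.ncard ∧
        p 0 = v ∧ ν 0 = μ ∧
        (∀ i ≤ N, p i ∈ Poly a β ∧ 0 < ν i ∧
          ∀ u ∈ Cone a β (p i), u ≠ 0 → val (c + ν i • d) u < 0) ∧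
        (∀ i < N, ν (i + 1) < ν i ∧ val c (p i) < val c (p (i + 1)) ∧
          ∃ w, Arg a β w = segment ℝ (p i) (p (i + 1))) ∧
        ((∀ y ∈ Poly a β, val c y ≤ val c (p N)) ∨
          ∃ u, 0 < val c u ∧ ∃ w, Arg a β w = Ray (p N) u) := by
  intro n
  induction n with
  | zero =>
    intro v μ hv hμ hu hn
    rcases one_step hgen hμ hv hu with h | h | ⟨v', hv', ν, hν, hνμ, hu', hc, w, hw⟩
    · exact ⟨0, fun _ => v, fun _ => μ, Nat.zero_le _, rfl, rfl, fun i _ => ⟨hv, hμ, hu⟩,
        fun i hi => absurd hi (Nat.not_lt_zero _), Or.inl h⟩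
    · exact ⟨0, fun _ => v, fun _ => μ, Nat.zero_le _, rfl, rfl, fun i _ => ⟨hv, hμ, hu⟩,
        fun i hi => absurd hi (Nat.not_lt_zero _), Or.inr h⟩
    · exfalso
      have h1 : v' ∈ {v' ∈ V | val c v < val c v'} := ⟨hmem v' hv' ν hν hu', hc⟩
      have h2 := (Set.ncard_pos (hV.subset fun x hx => hx.1)).2 ⟨v', h1⟩
      omega
  | succ n ih =>
    intro v μ hv hμ hu hn
    rcases one_step hgen hμ hv hu with h | h | ⟨v', hv', ν, hν, hνμ, hu', hc, w, hw⟩
    · exact ⟨0, fun _ => v, fun _ => μ, Nat.zero_le _, rfl, rfl, fun i _ => ⟨hv, hμ, hu⟩,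
        fun i hi => absurd hi (Nat.not_lt_zero _), Or.inl h⟩
    · exact ⟨0, fun _ => v, fun _ => μ, Nat.zero_le _, rfl, rfl, fun i _ => ⟨hv, hμ, hu⟩,
        fun i hi => absurd hi (Nat.not_lt_zero _), Or.inr h⟩
    · have h1 : v' ∈ {v' ∈ V | val c v < val c v'} := ⟨hmem v' hv' ν hν hu', hc⟩
      have hfin : {v' ∈ V | val c v < val c v'}.Finite := hV.subset fun x hx => hx.1
      have h2 : {x ∈ V | val c v' < val c x}.ncard < {v' ∈ V | val c v < val c v'}.ncard := by
        apply Set.ncard_lt_ncard _ hfin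
        refine ⟨fun x hx => ⟨hx.1, hc.trans hx.2⟩, fun h => ?_⟩
        exact lt_irrefl _ (h h1).2
      obtain ⟨N, p, κ, hN, hp0, hκ0, hp, hs, ht⟩ := ih v' ν hv' hν hu' (by omega)
      refine ⟨N + 1, fun i => Nat.casesOn i v p, fun i => Nat.casesOn i μ κ, by omega, rfl, rfl,
        ?_, ?_, ht⟩
      · rintro (_ | i) hi
        · exact ⟨hv, hμ, hu⟩
        · exact hp i (by omega)
      · rintro (_ | i) hi
        · refine ⟨?_, ?_, w, ?_⟩
          · show κ 0 < μ
            rw [hκ0]; exact hνμ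
          · show val c v < val c (p 0)
            rw [hp0]; exact hc
          · show Arg a β w = segment ℝ v (p 0)
            rw [hp0]; exact hw
        · exact hs i (by omega)

/-! ### directions in general position -/

/-- the direction `d` avoids the bad hyperplanes -/
def Generic (a : K → J → ℝ) (c d : J → ℝ) : Prop :=
  ∀ L : Set K, (∃ u, u ≠ 0 ∧ (∀ k ∈ L, val (a k) u = 0) ∧ val c u = 0) →
    ∃ u, (∀ k ∈ L, val (a k) u = 0) ∧ val c u = 0 ∧ val d u ≠ 0

theorem generic_genPos {c d : J → ℝ} (hgen : Generic a c d) : GenPos a β c d := by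
  intro μ hμ
  rcases (Arg a β (c + μ • d)).eq_empty_or_nonempty with h | ⟨v, hv⟩
  · rw [h]; exact collinear_empty ℝ _
  · rw [collinear_iff_of_mem hv]
    have hw := (max_iff hv.1).1 hv.2
    obtain ⟨L, h1, h2⟩ := span_lemma hw
    have h3 : ∀ x ∈ Arg a β (c + μ • d), ∀ k ∈ L, val (a k) (x - v) = 0 := by
      intro x hx
      apply h1 _ (mem_cone hx.1)
      rw [val_sub]
      have := hv.2 x hx.1
      have := hx.2 v hv.1
      linarith
    have h4 : ∀ u, (∀ k ∈ L, val (a k) u = 0) → val c u = 0 → u = 0 := by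
      intro u hu hcu
      by_contra hne
      obtain ⟨x, hx, hcx, hdx⟩ := hgen L ⟨u, hne, hu, hcu⟩
      have h5 := h2 x hx
      rw [add_val, smul_val, hcx, zero_add] at h5
      rcases mul_eq_zero.1 h5 with h6 | h6
      · exact hμ.ne' h6
      · exact hdx h6
    by_cases hex : ∃ y ∈ Arg a β (c + μ • d), val c (y - v) ≠ 0
    · obtain ⟨y, hy, hcy⟩ := hex
      refine ⟨y - v, fun x hx => ⟨val c (x - v) / val c (y - v), ?_⟩⟩
      have h5 : x - v - (val c (x - v) / val c (y - v)) • (y - v) = 0 := by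
        apply h4
        · intro k hk
          rw [val_sub, val_smul, h3 x hx k hk, h3 y hy k hk]; ring
        · rw [val_sub (w := c) (x := x - v), val_smul, div_mul_cancel₀ _ hcy, sub_self]
      rw [sub_eq_zero] at h5
      rw [vadd_eq_add, ← h5]
      abel
    · push Not at hex
      refine ⟨0, fun x hx => ⟨0, ?_⟩⟩
      have := h4 (x - v) (h3 x hx) (hex x hx)
      rw [sub_eq_zero] at this
      simp [this]

theorem exists_dir (a : K → J → ℚ) (β : K → ℝ) (c : J → ℝ) {v : J → ℝ}
    (hv : v ∈ Set.extremePoints ℝ (Poly (fun k j => (a k j : ℝ)) β)) (e : J → ℕ)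
    (he : Function.Injective e) (d0 : J → ℚ)
    (hd0 : d0 = open Classical in fun j => ∑ k, if val (fun j => (a k j : ℝ)) v = β k then a k j
      else 0) :
    ∃ q0 : ℝ, 0 < q0 ∧ ∀ q : ℚ, 0 < q → (q : ℝ) < q0 →
      (∀ u ∈ Cone (fun k j => (a k j : ℝ)) β v, u ≠ 0 →
        val (fun j => ((d0 j + q ^ (e j + 1) : ℚ) : ℝ)) u < 0) ∧
      Generic (fun k j => (a k j : ℝ)) c fun j => ((d0 j + q ^ (e j + 1) : ℚ) : ℝ) := by
  classical
  set a' : K → J → ℝ := fun k j => (a k j : ℝ) with ha'
  rw [mem_extremePoints] at hv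
  obtain ⟨hvP, hext⟩ := hv
  -- the tight normals determine the vertex
  have htight : ∀ u, (∀ k, val (a' k) v = β k → val (a' k) u = 0) → u = 0 := by
    intro u hu
    by_contra hu0
    obtain ⟨ε1, hε1, h1⟩ := step hvP (u := u) fun k hk => (hu k hk).le
    obtain ⟨ε2, hε2, h2⟩ := step hvP (u := -u) fun k hk => by
      rw [val_neg, hu k hk, neg_zero]
    have h3 : v ∈ openSegment ℝ (v + ε1 • u) (v + ε2 • -u) := by
      refine ⟨ε2 / (ε1 + ε2), ε1 / (ε1 + ε2), by positivity, by positivity, by field_simp; ring, ?_⟩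
      ext j
      simp only [Pi.add_apply, Pi.smul_apply, Pi.neg_apply, smul_eq_mul]
      field_simp
      ring
    have h4 := hext _ h1 _ h2 h3
    have h5 : ε1 • u = 0 := by simpa using h4.1
    rcases smul_eq_zero.1 h5 with h6 | h6
    · exact hε1.ne' h6
    · exact hu0 h6
  -- the sum of the tight normals
  have hd0v : ∀ u, val (fun j => (d0 j : ℝ)) u =
      ∑ k, if val (a' k) v = β k then val (a' k) u else 0 := by
    intro u
    unfold val
    have e : ∀ j, (d0 j : ℝ) * u j =
        ∑ k, if val (a' k) v = β k then (a' k j) * u j else 0 := by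
      intro j
      rw [hd0]
      push_cast
      rw [sum_mul]
      refine sum_congr rfl fun k _ => ?_
      split_ifs <;> simp [ha']
    rw [sum_congr rfl fun j _ => e j, sum_comm]
    refine sum_congr rfl fun k _ => ?_
    show ∑ j, (if val (a' k) v = β k then a' k j * u j else 0) =
      if val (a' k) v = β k then val (a' k) u else 0
    split_ifs
    · rfl
    · simp
  have hneg : ∀ u ∈ Cone a' β v, u ≠ 0 → val (fun j => (d0 j : ℝ)) u < 0 := by
    intro u hu hu0
    rw [hd0v]
    have h1 : ∀ k ∈ (univ : Finset K), (if val (a' k) v = β k then val (a' k) u else 0) ≤ 0 := by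
      intro k _
      split_ifs with h
      · exact hu k h
      · exact le_rfl
    refine lt_of_le_of_ne (sum_nonpos h1) fun h2 => hu0 (htight u fun k hk => ?_)
    have h3 := (sum_eq_zero_iff_of_nonpos h1).1 h2 k (mem_univ k)
    rwa [if_pos hk] at h3
  -- the curve
  let cur : ℝ → J → ℝ := fun ε j => (d0 j : ℝ) + ε ^ (e j + 1)
  have hcur : Filter.Tendsto cur (nhds 0) (nhds fun j => (d0 j : ℝ)) := by
    have h1 : Continuous cur := by
      apply continuous_pi
      intro j
      fun_prop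
    have h2 : cur 0 = fun j => (d0 j : ℝ) := by
      ext j
      simp [cur]
    rw [← h2]
    exact h1.tendsto 0
  have hev := hcur.eventually (open_umax hneg)
  rw [Metric.eventually_nhds_iff] at hev
  obtain ⟨δ, hδ, hev⟩ := hev
  -- the bad numbers
  have hbad : ∀ L : Set K, ∃ s : Set ℝ, s.Finite ∧ ∀ ε, ε ∉ s →
      (∃ u, u ≠ 0 ∧ (∀ k ∈ L, val (a' k) u = 0) ∧ val c u = 0) →
      ∃ u, (∀ k ∈ L, val (a' k) u = 0) ∧ val c u = 0 ∧ val (cur ε) u ≠ 0 := by
    intro L
    by_cases hL : ∃ u, u ≠ 0 ∧ (∀ k ∈ L, val (a' k) u = 0) ∧ val c u = 0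
    · obtain ⟨u, hu0, huL, huc⟩ := hL
      let p : Polynomial ℝ := ∑ j, Polynomial.monomial (e j + 1) (u j) +
        Polynomial.C (val (fun j => (d0 j : ℝ)) u)
      have hp : ∀ ε, p.eval ε = val (cur ε) u := by
        intro ε
        simp only [p, Polynomial.eval_add, Polynomial.eval_finsetSum, Polynomial.eval_monomial,
          Polynomial.eval_C]
        unfold val
        rw [← sum_add_distrib]
        refine sum_congr rfl fun j _ => ?_
        simp only [cur]
        ring
      have hp0 : p ≠ 0 := by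
        intro hp0
        apply hu0
        ext j
        have h1 : p.coeff (e j + 1) = 0 := by rw [hp0]; simp
        simp only [p, Polynomial.coeff_add, Polynomial.finsetSum_coeff, Polynomial.coeff_C,
          Polynomial.coeff_monomial] at h1
        have h4 : ∀ j', (if e j' + 1 = e j + 1 then u j' else 0) =
            if j' = j then u j' else 0 := by
          intro j'
          congr 1
          apply propext
          constructor
          · intro h5
            apply he
            omega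
          · rintro rfl; rfl
        rw [sum_congr rfl fun j' _ => h4 j'] at h1
        simpa using h1
      refine ⟨{ε | p.IsRoot ε}, Polynomial.finite_setOfPred_isRoot hp0, fun ε hε _ => ⟨u, huL, huc, ?_⟩⟩
      rw [← hp]
      exact hε
    · exact ⟨∅, Set.finite_empty, fun ε _ h => absurd h hL⟩
  choose s hs hsb using hbad
  have hfin : (⋃ L, s L).Finite := Set.finite_iUnion hs
  obtain ⟨δ', hδ', hle⟩ : ∃ δ' : ℝ, 0 < δ' ∧ ∀ x ∈ (⋃ L, s L), 0 < x → δ' ≤ x := by
    rcases (hfin.toFinset.filter fun x => 0 < x).eq_empty_or_nonempty with h | h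
    · refine ⟨1, one_pos, fun x hx hx0 => ?_⟩
      have : x ∈ hfin.toFinset.filter fun x => 0 < x := mem_filter.2 ⟨hfin.mem_toFinset.2 hx, hx0⟩
      rw [h] at this
      exact absurd this (notMem_empty x)
    · obtain ⟨x, hx, hmin⟩ := exists_min_image _ (fun x => x) h
      exact ⟨x, (mem_filter.1 hx).2, fun y hy hy0 =>
        hmin y (mem_filter.2 ⟨hfin.mem_toFinset.2 hy, hy0⟩)⟩
  refine ⟨min δ δ', lt_min hδ hδ', fun q hq0 hq1 => ?_⟩
  have hq0' : (0 : ℝ) < (q : ℝ) := by exact_mod_cast hq0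
  have h3 : cur (q : ℝ) = fun j => ((d0 j + q ^ (e j + 1) : ℚ) : ℝ) := by
    ext j
    simp [cur]
  constructor
  · have h1 : dist ((q : ℝ)) 0 < δ := by
      rw [Real.dist_eq, sub_zero, abs_of_pos hq0']
      exact hq1.trans_le (min_le_left _ _)
    have h2 := hev h1
    rw [h3] at h2
    exact h2
  · intro L hL
    have h2 := hsb L (q : ℝ) (fun h => by
      have := hle _ (Set.mem_iUnion.2 ⟨L, h⟩) hq0'
      have := min_le_right δ δ'
      linarith) hL
    rwa [h3] at h2

end Pool.Agent.Q231.TD.Path
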