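import Mathlib

/-!
The number of sets of affine functions which are positive at a common point.
-/

set_option autoImplicit false

open Finset

namespace Pool.Agent.Q231.TD

/-- the sets of functions positive at a point -/
def posSets {E : Type*} [AddCommGroup E] [Module ℝ E] {K : Type*} [DecidableEq K]
    (l : K → E →ₗ[ℝ] ℝ) (r : K → ℝ) (s : Finset K) : Set (Finset K) :=
  open Classical in {T | ∃ x : E, T = s.filter fun k => 0 < l k x + r k}

theorem posSets_finite {E : Type*} [AddCommGroup E] [Module ℝ E] {K : Type*} [DecidableEq K]
    (l : K → E →ₗ[ℝ] ℝ) (r : K → ℝ) (s : Finset K) : (posSets l r s).Finite := by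
  classical
  refine (s.powerset.finite_toSet).subset ?_
  rintro T ⟨x, rfl⟩
  rw [Finset.mem_coe, mem_powerset]
  exact filter_subset _ _

theorem pow_step (c d : ℕ) : (c + 1) ^ (d + 1) + (c + 1) ^ d ≤ (c + 2) ^ (d + 1) := by
  have h : (c + 1) ^ d ≤ (c + 2) ^ d := Nat.pow_le_pow_left (by omega) d
  calc (c + 1) ^ (d + 1) + (c + 1) ^ d = (c + 1) ^ d * (c + 2) := by ring
    _ ≤ (c + 2) ^ d * (c + 2) := Nat.mul_le_mul_right _ h
    _ = (c + 2) ^ (d + 1) := by ring

theorem card_posSets {K : Type*} [DecidableEq K] (s : Finset K) :
    ∀ (d : ℕ) (E : Type) [AddCommGroup E] [Module ℝ E] [FiniteDimensional ℝ E]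
      (l : K → E →ₗ[ℝ] ℝ) (r : K → ℝ), Module.finrank ℝ E = d →
      (posSets l r s).ncard ≤ (s.card + 1) ^ d := by
  classical
  induction s using Finset.induction_on with
  | empty =>
    intro d E _ _ _ l r _
    have : posSets l r (∅ : Finset K) ⊆ {∅} := by
      rintro T ⟨x, rfl⟩
      simp
    calc (posSets l r (∅ : Finset K)).ncard ≤ ({∅} : Set (Finset K)).ncard :=
          Set.ncard_le_ncard this
      _ = 1 := Set.ncard_singleton _
      _ ≤ _ := Nat.one_le_pow _ _ (by omega)
  | insert k s hk ih =>
    intro d E _ _ _ l r hd
    -- the doubles
    set D : Set (Finset K) := {T | T ∈ posSets l r s ∧ T ∈ posSets l r (insert k s) ∧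
      insert k T ∈ posSets l r (insert k s)} with hD
    have hfin := posSets_finite l r s
    have hDfin : D.Finite := hfin.subset fun T hT => hT.1
    have key : (posSets l r (insert k s)).ncard ≤ (posSets l r s).ncard + D.ncard := by
      have h1 : posSets l r (insert k s) ⊆ ({T ∈ posSets l r s | T ∈ posSets l r (insert k s)} ∪
          (insert k) '' {T ∈ posSets l r s | insert k T ∈ posSets l r (insert k s)}) := by
        intro T hT
        have hT' := hT
        obtain ⟨x, hx⟩ := hT
        by_cases hp : 0 < l k x + r k
        · right
          refine ⟨s.filter fun k => 0 < l k x + r k, ⟨⟨x, rfl⟩, ?_⟩, ?_⟩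
          · rw [filter_insert, if_pos hp] at hx
            rw [← hx]; exact hT'
          · rw [hx, filter_insert, if_pos hp]
        · left
          rw [filter_insert, if_neg hp] at hx
          exact ⟨⟨x, hx⟩, hT'⟩
      set X := {T ∈ posSets l r s | T ∈ posSets l r (insert k s)}
      set Y := {T ∈ posSets l r s | insert k T ∈ posSets l r (insert k s)}
      have hXf : X.Finite := hfin.subset fun T hT => hT.1
      have hYf : Y.Finite := hfin.subset fun T hT => hT.1
      have h2 : (posSets l r (insert k s)).ncard ≤ X.ncard + Y.ncard :=
        calc (posSets l r (insert k s)).ncard ≤ (X ∪ (insert k) '' Y).ncard :=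
              Set.ncard_le_ncard h1 (hXf.union (hYf.image _))
          _ ≤ X.ncard + ((insert k) '' Y).ncard := Set.ncard_union_le _ _
          _ ≤ X.ncard + Y.ncard := Nat.add_le_add_left (Set.ncard_image_le hYf) _
      have h3 : X.ncard + Y.ncard = (X ∪ Y).ncard + (X ∩ Y).ncard :=
        (Set.ncard_union_add_ncard_inter X Y hXf hYf).symm
      have h4 : (X ∪ Y).ncard ≤ (posSets l r s).ncard :=
        Set.ncard_le_ncard (by rintro T (hT | hT) <;> exact hT.1) hfin
      have h5 : (X ∩ Y).ncard ≤ D.ncard :=
        Set.ncard_le_ncard (by rintro T ⟨hT, hT'⟩; exact ⟨hT.1, hT.2, hT'.2⟩) hDfin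
      omega
    have ihs := ih d E l r hd
    rw [card_insert_of_notMem hk]
    by_cases hl : l k = 0
    · -- no doubles
      have hDe : D = ∅ := by
        rw [Set.eq_empty_iff_forall_notMem]
        rintro T ⟨⟨x, hx⟩, ⟨y, hy⟩, ⟨z, hz⟩⟩
        have hkT : k ∉ T := by
          rw [hx]
          simp [hk]
        have h1 : ¬ 0 < l k y + r k := by
          intro h
          apply hkT
          rw [hy, filter_insert, if_pos h]
          exact mem_insert_self _ _
        have h2 : 0 < l k z + r k := by
          by_contra h
          rw [filter_insert, if_neg h] at hz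
          have : k ∈ insert k T := mem_insert_self _ _
          rw [hz] at this
          exact hk (mem_filter.1 this).1
        rw [hl] at h1 h2
        exact h1 h2
      rw [hDe, Set.ncard_empty, Nat.add_zero] at key
      exact key.trans (ihs.trans (Nat.pow_le_pow_left (by omega) d))
    · -- doubles live on the hyperplane
      obtain ⟨x1, hx1⟩ : ∃ x, l k x ≠ 0 := by
        by_contra h
        push Not at h
        exact hl (LinearMap.ext h)
      set x0 : E := (-(r k) / l k x1) • x1 with hx0
      have hx0' : l k x0 + r k = 0 := by
        rw [hx0, map_smul, smul_eq_mul]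
        field_simp
        ring
      have hrk : Module.finrank ℝ (LinearMap.ker (l k)) + 1 = d := by
        have h1 := LinearMap.finrank_range_add_finrank_ker (l k)
        have h2 : Module.finrank ℝ (LinearMap.range (l k)) = 1 := by
          rw [LinearMap.range_eq_top.2 (LinearMap.surjective hl)]
          simp
        omega
      have hDsub : D ⊆ posSets (E := LinearMap.ker (l k))
          (fun j => (l j).comp (LinearMap.ker (l k)).subtype) (fun j => l j x0 + r j) s := by
        rintro T ⟨⟨x, hx⟩, ⟨y, hy⟩, ⟨z, hz⟩⟩
        have hkT : k ∉ T := by
          rw [hx]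
          simp [hk]
        have h1 : ¬ 0 < l k y + r k := by
          intro h
          apply hkT
          rw [hy, filter_insert, if_pos h]
          exact mem_insert_self _ _
        have h2 : 0 < l k z + r k := by
          by_contra h
          rw [filter_insert, if_neg h] at hz
          have : k ∈ insert k T := mem_insert_self _ _
          rw [hz] at this
          exact hk (mem_filter.1 this).1
        rw [filter_insert, if_neg h1] at hy
        have hz' : T = s.filter fun j => 0 < l j z + r j := by
          rw [filter_insert, if_pos h2] at hz
          have h3 : (insert k T).erase k = (insert k (s.filter fun j => 0 < l j z + r j)).erase k := by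
            rw [hz]
          rwa [erase_insert hkT, erase_insert (by simp [hk])] at h3
        set α : ℝ := l k z + r k with hα
        set γ : ℝ := -(l k y + r k) with hγ
        have hγ0 : 0 ≤ γ := by rw [hγ]; linarith
        have hs : 0 < α + γ := by linarith
        -- the point of the segment on the hyperplane
        set w : E := (γ / (α + γ)) • z + (α / (α + γ)) • y with hw
        have hsum : γ / (α + γ) + α / (α + γ) = 1 := by field_simp; ring
        have hval : ∀ j, l j w + r j = γ / (α + γ) * (l j z + r j) + α / (α + γ) * (l j y + r j) := by
          intro j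
          rw [hw, map_add, map_smul, map_smul, smul_eq_mul, smul_eq_mul]
          have : r j = (γ / (α + γ) + α / (α + γ)) * r j := by rw [hsum, one_mul]
          linear_combination this
        have hwk : l k w + r k = 0 := by
          rw [hval k]
          have e1 : l k z + r k = α := rfl
          have e2 : l k y + r k = -γ := by rw [hγ]; ring
          rw [e1, e2]
          field_simp
          ring
        refine ⟨⟨w - x0, ?_⟩, ?_⟩
        · rw [LinearMap.mem_ker, map_sub]
          linarith
        · have hfun : ∀ j, ((l j).comp (LinearMap.ker (l k)).subtype) ⟨w - x0, by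
              rw [LinearMap.mem_ker, map_sub]; linarith⟩ + (l j x0 + r j) = l j w + r j := by
            intro j
            simp only [LinearMap.comp_apply, Submodule.subtype_apply, map_sub]
            ring
          ext j
          rw [mem_filter]
          constructor
          · intro hj
            have hjs : j ∈ s := by
              rw [hx] at hj
              exact (mem_filter.1 hj).1
            refine ⟨hjs, ?_⟩
            rw [hfun j, hval j]
            have p1 : 0 < l j z + r j := by
              rw [hz'] at hj
              exact (mem_filter.1 hj).2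
            have p2 : 0 < l j y + r j := by
              rw [hy] at hj
              exact (mem_filter.1 hj).2
            have q1 : 0 ≤ γ / (α + γ) := div_nonneg hγ0 hs.le
            have q2 : 0 < α / (α + γ) := div_pos h2 hs
            have := mul_nonneg q1 p1.le
            have := mul_pos q2 p2
            linarith
          · rintro ⟨hjs, hj⟩
            rw [hfun j, hval j] at hj
            by_contra hjT
            have p1 : l j z + r j ≤ 0 := by
              by_contra h
              apply hjT
              rw [hz', mem_filter]
              exact ⟨hjs, lt_of_not_ge h⟩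
            have p2 : l j y + r j ≤ 0 := by
              by_contra h
              apply hjT
              rw [hy, mem_filter]
              exact ⟨hjs, lt_of_not_ge h⟩
            have q1 : 0 ≤ γ / (α + γ) := div_nonneg hγ0 hs.le
            have q2 : 0 ≤ α / (α + γ) := (div_pos h2 hs).le
            have := mul_nonpos_of_nonneg_of_nonpos q1 p1
            have := mul_nonpos_of_nonneg_of_nonpos q2 p2
            linarith
      have h6 := ih (Module.finrank ℝ (LinearMap.ker (l k))) (LinearMap.ker (l k))
        (fun j => (l j).comp (LinearMap.ker (l k)).subtype) (fun j => l j x0 + r j) rfl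
      have h7 := Set.ncard_le_ncard hDsub (posSets_finite _ _ _)
      obtain ⟨e, he⟩ : ∃ e, Module.finrank ℝ (LinearMap.ker (l k)) = e := ⟨_, rfl⟩
      rw [he] at h6 hrk
      subst hrk
      have h8 := pow_step s.card e
      calc (posSets l r (insert k s)).ncard ≤ (s.card + 1) ^ (e + 1) + (s.card + 1) ^ e := by omega
        _ ≤ (s.card + 2) ^ (e + 1) := h8
        _ = (s.card + 1 + 1) ^ (e + 1) := rfl

end Pool.Agent.Q231.TD
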