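import Pool.Agent.Q231.TD.Pat

/-!
Deleting one column: its variable becomes a parameter of the right-hand side.
-/

set_option autoImplicit false

open Finset

namespace Pool.Agent.Q231.TD

variable {I J : Type} [Fintype I] [Fintype J] [DecidableEq I] [DecidableEq J]

theorem small {K : Type} [Finite K] (p q : K → ℝ) :
    ∃ ε0 : ℝ, 0 < ε0 ∧ ∀ ε, 0 < ε → ε < ε0 → ∀ k, 0 < p k → 0 < p k + ε * q k := by
  have h : ∀ᶠ ε in nhds (0 : ℝ), ∀ k, 0 < p k → 0 < p k + ε * q k := by
    rw [Filter.eventually_all]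
    intro k
    by_cases hk : 0 < p k
    · have hc : ContinuousAt (fun ε : ℝ => p k + ε * q k) 0 := by fun_prop
      have h1 : (0 : ℝ) < p k + 0 * q k := by simpa using hk
      filter_upwards [hc.eventually (lt_mem_nhds h1)] with ε hε _
      exact hε
    · exact Filter.Eventually.of_forall fun ε h => absurd h hk
  rw [Metric.eventually_nhds_iff] at h
  obtain ⟨ε0, h0, h1⟩ := h
  refine ⟨ε0, h0, fun ε h2 h3 => h1 ?_⟩
  rw [Real.dist_eq, sub_zero, abs_of_pos h2]
  exact h3

theorem rat_step (x v ε0 : ℝ) (hv : v ≠ 0) (h0 : 0 < ε0) :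
    ∃ ε, 0 < ε ∧ ε < ε0 ∧ ∃ r : ℚ, x + ε * v = r := by
  rcases lt_or_gt_of_ne hv with h | h
  · obtain ⟨r, h1, h2⟩ := exists_rat_btwn (show x + ε0 * v < x by
      have := mul_neg_of_pos_of_neg h0 h; linarith)
    refine ⟨(r - x) / v, div_pos_of_neg_of_neg (by linarith) h, ?_, r, ?_⟩
    · rw [div_lt_iff_of_neg h]
      linarith
    · field_simp
      ring
  · obtain ⟨r, h1, h2⟩ := exists_rat_btwn (show x < x + ε0 * v by
      have := mul_pos h0 h; linarith)
    refine ⟨(r - x) / v, div_pos (by linarith) h, ?_, r, ?_⟩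
    · rw [div_lt_iff₀ h]
      linarith
    · field_simp
      ring

/-- a small move of the variable `y` -/
theorem primal_step {a : ℕ} {A : Matrix I J ℚ} {U : Finset I} {W : Finset J} {b0 : I → ℝ}
    {B : I → Fin a → ℚ} {β : Fin a → ℚ} {R R' : Finset I} {S S' : Finset J} {y : J}
    (h : POK A U W (aff b0 B β) R S) (hyS : y ∈ S) (v : J → ℚ) (hvy : v y ≠ 0) (hR' : R' ⊆ R)
    (hS' : S' ⊆ W.erase y) (h1 : ∀ i ∈ R', ∑ j, A i j * v j = 0)
    (h2 : ∀ i ∈ R, i ∉ R' → ∑ j, A i j * v j < 0) (h3 : ∀ j ∈ S', j ∈ S ∨ 0 < v j)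
    (h4 : ∀ j, j ∉ S' → j ≠ y → j ∉ S ∧ v j = 0) :
    ∃ r : ℚ, POK A U (W.erase y) (aff b0 (fun i => Fin.cons (-A i y) (B i) : I → Fin (a + 1) → ℚ)
      (Fin.cons r β)) R' S' := by
  obtain ⟨hRU, hSW, x, p, q, r, s⟩ := h
  obtain ⟨ε0, h0, hε0⟩ := small (K := I ⊕ J)
    (Sum.elim (fun i => aff b0 B β i - ∑ j, (A i j : ℝ) * x j) x)
    (Sum.elim (fun i => - ∑ j, (A i j : ℝ) * (v j : ℝ)) fun j => (v j : ℝ))
  obtain ⟨ε, hε, hε', ρ, hρ⟩ := rat_step (x y) (v y) ε0 (by exact_mod_cast hvy) h0
  have hsm := hε0 ε hε hε'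
  refine ⟨ρ, hR'.trans hRU, hS', fun j => if j = y then 0 else x j + ε * v j, ?_, ?_, ?_, ?_⟩
  · intro j hj
    have hjy : j ≠ y := (mem_erase.1 (hS' hj)).1
    simp only [hjy, if_false]
    by_cases hjS : j ∈ S
    · exact hsm (Sum.inr j) (p j hjS)
    · rcases h3 j hj with h | h
      · exact absurd h hjS
      · rw [q j hjS, zero_add]
        exact mul_pos hε (by exact_mod_cast h)
  · intro j hj
    by_cases hjy : j = y
    · simp [hjy]
    · obtain ⟨h5, h6⟩ := h4 j hj hjy
      simp [hjy, q j h5, h6]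
  all_goals
    have e1 : ∀ i, ∑ j, (A i j : ℝ) * (if j = y then 0 else x j + ε * v j) =
        ∑ j, (A i j : ℝ) * x j + ε * ∑ j, (A i j : ℝ) * (v j : ℝ) - (A i y : ℝ) * ρ := by
      intro i
      have e2 : ∀ j, (A i j : ℝ) * (if j = y then 0 else x j + ε * v j) =
          ((A i j : ℝ) * x j + ε * ((A i j : ℝ) * (v j : ℝ))) -
          (if j = y then (A i y : ℝ) * ρ else 0) := by
        intro j
        split_ifs with hj
        · rw [hj, ← hρ]; ring
        · ring
      rw [sum_congr rfl fun j _ => e2 j, sum_sub_distrib, sum_add_distrib, ← mul_sum]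
      simp
    have e3 : ∀ i, aff b0 (fun i => Fin.cons (-A i y) (B i) : I → Fin (a + 1) → ℚ)
        (Fin.cons ρ β) i = aff b0 B β i - (A i y : ℝ) * ρ := by
      intro i
      unfold aff
      rw [Fin.sum_univ_succ]
      simp only [Fin.cons_zero, Fin.cons_succ]
      push_cast
      ring
    intro i hi
  · rw [e1, e3, r i (hR' hi)]
    have : ∑ j, (A i j : ℝ) * (v j : ℝ) = 0 := by exact_mod_cast h1 i hi
    rw [this]; ring
  · intro hiR'
    rw [e1, e3]
    by_cases hiR : i ∈ R
    · rw [r i hiR]
      have h5 : ∑ j, (A i j : ℝ) * (v j : ℝ) < 0 := by exact_mod_cast h2 i hiR hiR'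
      have := mul_neg_of_pos_of_neg hε h5
      linarith
    · have h5 := s i hi hiR
      have h6 := hsm (Sum.inl i) (by simpa using h5)
      simp only [Sum.elim_inl] at h6
      linarith

/-- how a pattern is found from the pattern without the column `y` -/
def dec (y : J) : (Finset I × Finset J) × Option (I ⊕ J) → Finset I × Finset J
  | (P, none) => P
  | (P, some (Sum.inl i)) => (insert i P.1, insert y P.2)
  | (P, some (Sum.inr j)) => (P.1, insert y (P.2.erase j))

theorem dual_eq {A : Matrix I J ℚ} (z : I → ℝ) (ρ : I → ℚ) (t : ℝ) (j : J) :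
    ∑ i, ((-A.transpose) j i : ℝ) * (z i + t * ρ i) =
      ∑ i, ((-A.transpose) j i : ℝ) * z i - t * ((∑ i, ρ i * A i j : ℚ) : ℝ) := by
  push_cast
  rw [mul_sum, ← sum_sub_distrib]
  refine sum_congr rfl fun i _ => ?_
  rw [Matrix.neg_apply, Matrix.transpose_apply]
  push_cast
  ring

theorem root_col {a D : ℕ} {A : Matrix I J ℚ} {U : Finset I} {W : Finset J} {b0 : I → ℝ}
    {B : I → Fin a → ℚ} {c0 : J → ℝ} {C : J → Fin D → ℚ} (hb : Gen b0) (hc : Gen c0) {y : J}
    (hy : y ∈ W) {P : Finset I × Finset J} (hP : P ∈ Pats A U W b0 B c0 C) :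
    ∃ P' ∈ Pats A U (W.erase y) b0 (fun i => Fin.cons (-A i y) (B i) : I → Fin (a + 1) → ℚ) c0 C,
      ∃ e, P = dec y (P', e) := by
  obtain ⟨R, S⟩ := P
  obtain ⟨Q, hQ⟩ := pats_inv hb hc hP
  obtain ⟨⟨β, hβ⟩, μ, hμ⟩ := hP
  simp only at hβ hμ hQ
  by_cases hyS : y ∈ S
  swap
  · -- `y` is not in the pattern
    refine ⟨(R, S), ⟨⟨Fin.cons 0 β, ?_⟩, μ, ?_⟩, none, rfl⟩
    · obtain ⟨hRU, hSW, x, p, q, r, s⟩ := hβ
      have e3 : ∀ i, aff b0 (fun i => Fin.cons (-A i y) (B i) : I → Fin (a + 1) → ℚ)
          (Fin.cons 0 β) i = aff b0 B β i := by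
        intro i
        unfold aff
        rw [Fin.sum_univ_succ]
        simp only [Fin.cons_zero, Fin.cons_succ]
        push_cast
        ring
      refine ⟨hRU, fun j hj => mem_erase.2 ⟨fun h => hyS (h ▸ hj), hSW hj⟩, x, p, q, ?_, ?_⟩
      · intro i hi; rw [e3]; exact r i hi
      · intro i hi hi'; rw [e3]; exact s i hi hi'
    · obtain ⟨hSW, hRU, z, p, q, r, s⟩ := hμ
      refine ⟨fun j hj => mem_erase.2 ⟨fun h => hyS (h ▸ hj), hSW hj⟩, hRU, z, p, q, r, ?_⟩
      intro j hj
      exact s j (mem_of_mem_erase hj)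
  · -- the pivot
    obtain ⟨hRU, hSW, x, p, q, r, s⟩ := hβ
    obtain ⟨-, -, z, p', q', r', s'⟩ := hμ
    set ρ : I → ℚ := fun i => Q y i with hρ
    set κ : J → ℚ := fun j => ∑ i, ρ i * A i j with hκ
    have hκS : ∀ j ∈ S, κ j = if y = j then 1 else 0 := fun j hj => hQ.left y hyS j hj
    set E : Finset (I ⊕ J) := R.disjSum (W \ S) with hE
    set g : I ⊕ J → ℝ := Sum.elim z
      (fun j => aff c0 C μ j - ∑ i, ((-A.transpose) j i : ℝ) * z i) with hg
    set sl : I ⊕ J → ℝ := Sum.elim (fun i => (ρ i : ℝ)) (fun j => (κ j : ℝ)) with hsl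
    have hgE : ∀ e ∈ E, 0 < g e := by
      rintro (i | j) he
      · exact p' i (inl_mem_disjSum.1 he)
      · have := inr_mem_disjSum.1 he
        rw [mem_sdiff] at this
        have := s' j this.1 this.2
        show 0 < aff c0 C μ j - ∑ i, ((-A.transpose) j i : ℝ) * z i
        linarith
    have hcard : R.card = S.card := by
      apply le_antisymm
      · exact card_le_card_of_sol hb B β q r
      · exact card_le_card_of_sol hc C μ q' r'
    -- an element of `R` which is hit
    obtain ⟨i1, hi1R, hi1⟩ : ∃ i ∈ R, ρ i ≠ 0 := by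
      by_contra h
      push Not at h
      have h1 : κ y = 0 := by
        apply sum_eq_zero
        intro i _
        by_cases hi : i ∈ R
        · rw [h i hi, zero_mul]
        · show Q y i * _ = 0
          rw [hQ.offR y i hi, zero_mul]
      rw [hκS y hyS, if_pos rfl] at h1
      exact one_ne_zero h1
    obtain ⟨σ, hσ, e1, he1, hse1⟩ : ∃ σ : ℝ, σ ≠ 0 ∧ ∃ e ∈ E, σ * sl e < 0 := by
      have hi1' : (ρ i1 : ℝ) ≠ 0 := by exact_mod_cast hi1
      refine ⟨-(ρ i1 : ℝ), neg_ne_zero.2 hi1', Sum.inl i1, inl_mem_disjSum.2 hi1R, ?_⟩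
      show -(ρ i1 : ℝ) * (ρ i1 : ℝ) < 0
      have := mul_self_pos.2 hi1'
      linarith
    obtain ⟨h, hh, hmin⟩ := exists_min_image (E.filter fun e => σ * sl e < 0)
      (fun e => g e / (-(σ * sl e))) ⟨e1, mem_filter.2 ⟨he1, hse1⟩⟩
    rw [mem_filter] at hh
    obtain ⟨hhE, hhs⟩ := hh
    set t : ℝ := g h / (-(σ * sl h)) with ht
    have ht0 : 0 < t := div_pos (hgE h hhE) (by linarith)
    have hh0 : g h + t * σ * sl h = 0 := by
      have h1 : -(σ * sl h) ≠ 0 := by
        intro h2
        linarith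
      have h2 : t * (-(σ * sl h)) = g h := div_mul_cancel₀ _ h1
      linarith
    have hge : ∀ e ∈ E, 0 ≤ g e + t * σ * sl e := by
      intro e he
      by_cases hs : σ * sl e < 0
      · have h1 := hmin e (mem_filter.2 ⟨he, hs⟩)
        rw [le_div_iff₀ (by linarith)] at h1
        linarith
      · have h1 := hgE e he
        have h2 : 0 ≤ t * (σ * sl e) := mul_nonneg ht0.le (not_lt.1 hs)
        linarith
    -- the new dual point
    set z' : I → ℝ := fun i => z i + (t * σ) * ρ i with hz'
    have hz'off : ∀ i, i ∉ R → z' i = 0 := by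
      intro i hi
      show z i + (t * σ) * (Q y i : ℝ) = 0
      rw [q' i hi, hQ.offR y i hi]; simp
    have hz'R : ∀ i ∈ R, z' i = g (Sum.inl i) + t * σ * sl (Sum.inl i) := fun i _ => rfl
    have hz'S : ∀ j ∈ S, j ≠ y → ∑ i, ((-A.transpose) j i : ℝ) * z' i = aff c0 C μ j := by
      intro j hj hjy
      rw [hz', dual_eq, r' j hj]
      have : κ j = 0 := by rw [hκS j hj, if_neg (Ne.symm hjy)]
      rw [show (∑ i, ρ i * A i j : ℚ) = 0 from this]
      simp
    have hz'W : ∀ j, aff c0 C μ j - ∑ i, ((-A.transpose) j i : ℝ) * z' i =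
        g (Sum.inr j) + t * σ * sl (Sum.inr j) := by
      intro j
      rw [hz', dual_eq]
      show _ = aff c0 C μ j - ∑ i, ((-A.transpose) j i : ℝ) * z i + t * σ * ((κ j : ℚ) : ℝ)
      ring
    -- no ties
    have htie : ∀ T ⊆ E, (∀ e ∈ T, g e + t * σ * sl e = 0) → T.card ≤ 1 := by
      intro T hT hT0
      have hc1 : ((S.erase y) ∪ T.toRight).card ≤ (R \ T.toLeft).card := by
        apply card_le_card_of_sol hc C μ (A := -A.transpose) (x := z')
        · intro i hi
          by_cases hiR : i ∈ R
          · have hiT : i ∈ T.toLeft := by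
              by_contra h5
              exact hi (mem_sdiff.2 ⟨hiR, h5⟩)
            rw [mem_toLeft] at hiT
            rw [hz'R i hiR]
            exact hT0 _ hiT
          · exact hz'off i hiR
        · intro j hj
          rw [mem_union, mem_erase, mem_toRight] at hj
          rcases hj with hj | hj
          · exact hz'S j hj.2 hj.1
          · have h5 := hT0 _ hj
            rw [← hz'W j] at h5
            linarith
      have hTR : T.toRight ⊆ W \ S := by
        intro j hj
        rw [mem_toRight] at hj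
        exact inr_mem_disjSum.1 (hT hj)
      have hTL : T.toLeft ⊆ R := by
        intro i hi
        rw [mem_toLeft] at hi
        exact inl_mem_disjSum.1 (hT hi)
      have hdis : Disjoint (S.erase y) T.toRight := by
        rw [disjoint_left]
        intro j hj hj'
        exact (mem_sdiff.1 (hTR hj')).2 (mem_of_mem_erase hj)
      rw [card_union_of_disjoint hdis, card_erase_of_mem hyS, card_sdiff_of_subset hTL] at hc1
      have h5 := card_toLeft_add_card_toRight (u := T)
      have h6 : 0 < S.card := card_pos.2 ⟨y, hyS⟩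
      have h7 := card_le_card hTL
      omega
    have hpos : ∀ e ∈ E, e ≠ h → 0 < g e + t * σ * sl e := by
      intro e he hne
      rcases (hge e he).lt_or_eq with h5 | h5
      · exact h5
      · exfalso
        have h6 := htie {e, h} (by
          intro f hf
          rw [mem_insert, mem_singleton] at hf
          rcases hf with rfl | rfl
          · exact he
          · exact hhE) (by
          intro f hf
          rw [mem_insert, mem_singleton] at hf
          rcases hf with rfl | rfl
          · exact h5.symm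
          · exact hh0)
        rw [card_pair hne] at h6
        omega
    rcases h with i0 | j0
    · -- a row is hit
      have hi0 : i0 ∈ R := inl_mem_disjSum.1 hhE
      have hρi0 : ρ i0 ≠ 0 := by
        intro h5
        have h6 : sl (Sum.inl i0) = ((ρ i0 : ℚ) : ℝ) := rfl
        rw [h6, h5] at hhs
        simp at hhs
      obtain ⟨r0, hr0⟩ := primal_step (R' := R.erase i0) (S' := S.erase y)
        (⟨hRU, hSW, x, p, q, r, s⟩ : POK A U W (aff b0 B β) R S) hyS (fun j => -Q j i0)
        (neg_ne_zero.2 hρi0) (erase_subset _ _) (erase_subset_erase _ hSW)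
        (by
          intro i hi
          have h5 := hQ.right i (mem_of_mem_erase hi) i0 hi0
          rw [if_neg (ne_of_mem_erase hi)] at h5
          rw [sum_congr rfl fun j _ => mul_neg (A i j) (Q j i0), sum_neg_distrib, h5, neg_zero])
        (by
          intro i hi hi'
          have h6 : i = i0 := by
            by_contra h7
            exact hi' (mem_erase.2 ⟨h7, hi⟩)
          subst h6
          have h5 := hQ.right i hi i hi
          rw [if_pos rfl] at h5
          rw [sum_congr rfl fun j _ => mul_neg (A i j) (Q j i), sum_neg_distrib, h5]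
          norm_num)
        (fun j hj => Or.inl (mem_of_mem_erase hj))
        (by
          intro j hj hjy
          have h5 : j ∉ S := fun h => hj (mem_erase.2 ⟨hjy, h⟩)
          exact ⟨h5, by rw [hQ.offS j i0 h5, neg_zero]⟩)
      refine ⟨(R.erase i0, S.erase y), ⟨⟨_, hr0⟩, μ, erase_subset_erase _ hSW,
        (erase_subset _ _).trans hRU, z', ?_, ?_, ?_, ?_⟩, some (Sum.inl i0), ?_⟩
      · intro i hi
        rw [hz'R i (mem_of_mem_erase hi)]
        apply hpos _ (inl_mem_disjSum.2 (mem_of_mem_erase hi))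
        intro h5
        exact (ne_of_mem_erase hi) (Sum.inl.inj h5)
      · intro i hi
        by_cases hiR : i ∈ R
        · have h6 : i = i0 := by
            by_contra h7
            exact hi (mem_erase.2 ⟨h7, hiR⟩)
          rw [hz'R i hiR, h6]
          exact hh0
        · exact hz'off i hiR
      · intro j hj
        exact hz'S j (mem_of_mem_erase hj) (ne_of_mem_erase hj)
      · intro j hj hjS
        have hjS' : j ∉ S := fun h => hjS (mem_erase.2 ⟨ne_of_mem_erase hj, h⟩)
        have h5 := hpos (Sum.inr j) (inr_mem_disjSum.2 (mem_sdiff.2 ⟨mem_of_mem_erase hj, hjS'⟩))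
          (by intro h; cases h)
        rw [← hz'W j] at h5
        linarith
      · show (R, S) = (insert i0 (R.erase i0), insert y (S.erase y))
        rw [insert_erase hi0, insert_erase hyS]
    · -- a column is hit
      have hj0 := inr_mem_disjSum.1 hhE
      rw [mem_sdiff] at hj0
      obtain ⟨hj0W, hj0S⟩ := hj0
      have hj0y : j0 ≠ y := fun h => hj0S (h ▸ hyS)
      have hκj0 : κ j0 ≠ 0 := by
        intro h5
        have h6 : sl (Sum.inr j0) = ((κ j0 : ℚ) : ℝ) := rfl
        rw [h6, h5] at hhs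
        simp at hhs
      set v : J → ℚ := fun j => (if j = j0 then 1 else 0) - ∑ i, Q j i * A i j0 with hv
      have hAv : ∀ i ∈ R, ∑ j, A i j * v j = 0 := by
        intro i hi
        have h5 : ∑ j, A i j * ∑ i', Q j i' * A i' j0 = A i j0 := by
          have h6 := hQ.solve (fun i' => (A i' j0 : ℝ)) i hi
          exact_mod_cast h6
        have h7 : ∀ j, A i j * v j = (if j = j0 then A i j0 else 0) -
            A i j * ∑ i', Q j i' * A i' j0 := by
          intro j
          rw [hv]
          simp only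
          rw [mul_sub]
          congr 1
          split_ifs with h8
          · rw [h8, mul_one]
          · rw [mul_zero]
        rw [sum_congr rfl fun j _ => h7 j, sum_sub_distrib, h5]
        simp
      obtain ⟨r0, hr0⟩ := primal_step (R' := R) (S' := insert j0 (S.erase y))
        (⟨hRU, hSW, x, p, q, r, s⟩ : POK A U W (aff b0 B β) R S) hyS v
        (by
          have : v y = -κ j0 := by
            show (if y = j0 then 1 else 0) - ∑ i, Q y i * A i j0 = - ∑ i, Q y i * A i j0
            rw [if_neg (Ne.symm hj0y), zero_sub]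
          rw [this]
          exact neg_ne_zero.2 hκj0) (Subset.refl _)
        (insert_subset (mem_erase.2 ⟨hj0y, hj0W⟩) (erase_subset_erase _ hSW)) hAv
        (fun i hi hi' => absurd hi hi')
        (by
          intro j hj
          rcases mem_insert.1 hj with rfl | hj
          · right
            show 0 < (if j = j then 1 else 0) - ∑ i, Q j i * A i j
            rw [if_pos rfl, sum_eq_zero (fun i _ => by rw [hQ.offS j i hj0S, zero_mul])]
            norm_num
          · left
            exact mem_of_mem_erase hj)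
        (by
          intro j hj hjy
          have h5 : j ∉ S := fun h => hj (mem_insert_of_mem (mem_erase.2 ⟨hjy, h⟩))
          have h6 : j ≠ j0 := fun h => hj (h ▸ mem_insert_self _ _)
          refine ⟨h5, ?_⟩
          show (if j = j0 then 1 else 0) - ∑ i, Q j i * A i j0 = 0
          rw [if_neg h6, sum_eq_zero (fun i _ => by rw [hQ.offS j i h5, zero_mul]), sub_zero])
      refine ⟨(R, insert j0 (S.erase y)), ⟨⟨_, hr0⟩, μ,
        insert_subset (mem_erase.2 ⟨hj0y, hj0W⟩) (erase_subset_erase _ hSW), hRU, z', ?_, ?_, ?_,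
        ?_⟩, some (Sum.inr j0), ?_⟩
      · intro i hi
        rw [hz'R i hi]
        exact hpos _ (inl_mem_disjSum.2 hi) (by intro h; cases h)
      · intro i hi
        exact hz'off i hi
      · intro j hj
        rcases mem_insert.1 hj with rfl | hj
        · have h5 := hz'W j
          rw [hh0] at h5
          linarith
        · exact hz'S j (mem_of_mem_erase hj) (ne_of_mem_erase hj)
      · intro j hj hjS
        have hjS' : j ∉ S := fun h => hjS (mem_insert_of_mem (mem_erase.2 ⟨ne_of_mem_erase hj, h⟩))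
        have hjj0 : j ≠ j0 := fun h => hjS (h ▸ mem_insert_self _ _)
        have h5 := hpos (Sum.inr j) (inr_mem_disjSum.2 (mem_sdiff.2 ⟨mem_of_mem_erase hj, hjS'⟩))
          (by intro h; exact hjj0 (Sum.inr.inj h))
        rw [← hz'W j] at h5
        linarith
      · show (R, S) = (R, insert y ((insert j0 (S.erase y)).erase j0))
        rw [erase_insert (fun h => hj0S (mem_of_mem_erase h)), insert_erase hyS]

theorem card_root_col {a D : ℕ} {A : Matrix I J ℚ} {U : Finset I} {W : Finset J} {b0 : I → ℝ}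
    (B : I → Fin a → ℚ) {c0 : J → ℝ} (C : J → Fin D → ℚ) (hb : Gen b0) (hc : Gen c0) {y : J}
    (hy : y ∈ W) :
    (Pats A U W b0 B c0 C).ncard ≤ (Fintype.card I + Fintype.card J + 1) *
      (Pats A U (W.erase y) b0 (fun i => Fin.cons (-A i y) (B i) : I → Fin (a + 1) → ℚ)
        c0 C).ncard := by
  classical
  set X := Pats A U (W.erase y) b0 (fun i => Fin.cons (-A i y) (B i) : I → Fin (a + 1) → ℚ) c0 C
  have h1 : Pats A U W b0 B c0 C ⊆ dec y '' (X ×ˢ (Set.univ : Set (Option (I ⊕ J)))) := by
    intro P hP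
    obtain ⟨P', hP', e, he⟩ := root_col hb hc hy hP
    exact ⟨(P', e), ⟨hP', Set.mem_univ _⟩, he.symm⟩
  calc (Pats A U W b0 B c0 C).ncard ≤ (dec y '' (X ×ˢ (Set.univ : Set (Option (I ⊕ J))))).ncard :=
        Set.ncard_le_ncard h1 (Set.toFinite _)
    _ ≤ (X ×ˢ (Set.univ : Set (Option (I ⊕ J)))).ncard := Set.ncard_image_le (Set.toFinite _)
    _ = X.ncard * (Set.univ : Set (Option (I ⊕ J))).ncard := Set.ncard_prod
    _ = (Fintype.card I + Fintype.card J + 1) * X.ncard := by
        rw [Set.ncard_univ, Nat.card_eq_fintype_card, Fintype.card_option, Fintype.card_sum]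
        ring

/-- deleting a row: its multiplier becomes a parameter of the objective function -/
theorem card_root_row {a D : ℕ} {A : Matrix I J ℚ} {U : Finset I} {W : Finset J} {b0 : I → ℝ}
    (B : I → Fin a → ℚ) {c0 : J → ℝ} (C : J → Fin D → ℚ) (hb : Gen b0) (hc : Gen c0) {y : I}
    (hy : y ∈ U) :
    (Pats A U W b0 B c0 C).ncard ≤ (Fintype.card I + Fintype.card J + 1) *
      (Pats A (U.erase y) W b0 B c0
        (fun j => Fin.cons (A y j) (C j) : J → Fin (D + 1) → ℚ)).ncard := by
  have h1 := card_root_col (A := -A.transpose) (U := W) (W := U) C B hc hb hy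
  have h2 : (fun j => Fin.cons (-(-A.transpose) j y) (C j) : J → Fin (D + 1) → ℚ) =
      fun j => Fin.cons (A y j) (C j) := by
    ext j t
    simp
  rw [h2, pats_swap, pats_swap, Set.ncard_image_of_injective _ Prod.swap_injective,
    Set.ncard_image_of_injective _ Prod.swap_injective, add_comm (Fintype.card J)] at h1
  exact h1

end Pool.Agent.Q231.TD
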